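import Pool.Agent.W129.BC.Mader

/-!
Groups acting semifreely on a connected graph without a large complete minor: if all prime divisors
of the order of the group are large then the action is commutative.
-/

set_option autoImplicit false

namespace Pool.Agent.W129.BC

open SimpleGraph MulAction Pool.Agent.Helper999.HM
open scoped Pointwise

/-- the bound for the prime divisors -/
def NN (h : ℕ) : ℕ := 2 ^ h + 2 * h + 3

/-- all prime divisors of the order of `G` are at least `NN h` -/
def Big (h : ℕ) (G : Type) [Group G] : Prop := ∀ p, p.Prime → p ∣ Nat.card G → NN h ≤ p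

theorem big_dvd {h : ℕ} {G : Type} [Group G] [Finite G] (hG : Big h G) {n : ℕ}
    (hn : n ∣ Nat.card G) (h1 : n ≠ 1) : NN h ≤ n := by
  have h0 : n ≠ 0 := by
    rintro rfl
    rw [zero_dvd_iff] at hn
    exact Nat.card_pos.ne' hn
  exact (hG _ (Nat.minFac_prime h1) ((Nat.minFac_dvd n).trans hn)).trans
    (Nat.minFac_le (Nat.pos_of_ne_zero h0))

theorem orbit_big {h : ℕ} {G : Type} [Group G] [Finite G] (hG : Big h G) {α : Type*}
    [MulAction G α] (A : Subgroup G) (a : α) {g : G} (hg : g ∈ A) (hga : g • a ≠ a) :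
    NN h ≤ (orbit A a).ncard := by
  rw [← index_stabilizer]
  refine big_dvd hG ((Subgroup.index_dvd_card _).trans (Subgroup.card_subgroup_dvd_card A)) ?_
  rw [Ne, Subgroup.index_eq_one]
  intro htop
  have : (⟨g, hg⟩ : A) ∈ stabilizer A a := by rw [htop]; trivial
  exact hga this

theorem Big.subgroup {h : ℕ} {G : Type} [Group G] [Finite G] (hG : Big h G) (A : Subgroup G) :
    Big h A := fun p hp hd => hG p hp (hd.trans (Subgroup.card_subgroup_dvd_card A))

/-- a connected transversal of the orbits -/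
theorem exists_transversal {V R : Type} [Finite V] [Group R] [MulAction R V] (K : Set V)
    {Y : SimpleGraph V} (hadj : ∀ (r : R) (u v : V), Y.Adj u v → Y.Adj (r • u) (r • v))
    (hK : ∀ (r : R), ∀ x ∈ K, r • x ∈ K) (hconn : (Y.induce K).Connected) :
    ∃ T ⊆ K, (Y.induce T).Connected ∧ (∀ y ∈ K, ∃ r : R, ∃ t ∈ T, y = r • t) ∧
      ∀ t ∈ T, ∀ t' ∈ T, ∀ r : R, r • t = t' → t = t' := by
  classical
  let P : Set (Set V) := {T | T ⊆ K ∧ (Y.induce T).Connected ∧
    ∀ t ∈ T, ∀ t' ∈ T, ∀ r : R, r • t = t' → t = t'}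
  have hP : P.Nonempty := by
    obtain ⟨⟨x, hx⟩⟩ := hconn.nonempty
    refine ⟨{x}, by simpa using hx, conn_singleton Y x, ?_⟩
    rintro t rfl t' rfl r _
    rfl
  obtain ⟨T, hTP, hmax⟩ := Set.exists_max_image P Set.ncard (Set.toFinite P) hP
  obtain ⟨hTK, hTc, hTr⟩ := hTP
  refine ⟨T, hTK, hTc, ?_, hTr⟩
  obtain ⟨⟨t0, ht0⟩⟩ := hTc.nonempty
  intro y hy
  have hpath := step_of_conn hconn (hTK ht0) hy
  induction hpath with
  | refl => exact ⟨1, t0, ht0, (one_smul _ _).symm⟩
  | @tail x z hx' hstep ih =>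
    have hxK : x ∈ K := by
      rcases Relation.ReflTransGen.cases_tail hx' with h | ⟨w, _, h⟩
      · rw [h]; exact hTK ht0
      · exact h.2
    obtain ⟨r, t, ht, rfl⟩ := ih hxK
    by_contra hcon
    push Not at hcon
    have hz1 : r⁻¹ • z ∈ K := hK _ _ hstep.2
    have hadj1 : Y.Adj t (r⁻¹ • z) := by
      have := hadj r⁻¹ _ _ hstep.1
      rwa [inv_smul_smul] at this
    have hzT : ∀ (r' : R), ∀ t' ∈ T, r⁻¹ • z ≠ r' • t' := by
      intro r' t' ht' he
      apply hcon (r * r') t' ht'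
      rw [mul_smul, ← he, smul_inv_smul]
    have hnot : r⁻¹ • z ∉ T := fun hh => hzT 1 _ hh (one_smul _ _).symm
    have hT' : T ∪ {r⁻¹ • z} ∈ P := by
      refine ⟨Set.union_subset hTK (by simpa using hz1), ?_, ?_⟩
      · exact conn_union hTc (conn_singleton Y _) ht rfl hadj1
      · rintro a (ha | ha) b (hb | hb) q hq
        · exact hTr a ha b hb q hq
        · rw [Set.mem_singleton_iff] at hb
          exact (hzT q a ha (by rw [hq, hb])).elim
        · rw [Set.mem_singleton_iff] at ha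
          refine (hzT q⁻¹ b hb ?_).elim
          rw [← hq, inv_smul_smul, ha]
        · rw [Set.mem_singleton_iff] at ha hb
          rw [ha, hb]
    have := hmax _ hT'
    rw [Set.union_singleton, Set.ncard_insert_of_notMem hnot] at this
    omega

section Gen

variable {h : ℕ} {Q : Type} [Group Q] [Finite Q]

theorem coset_conn {Γ : SimpleGraph Q} {s : Q} (hs : ∀ g, Γ.Adj g (g * s)) (g : Q) :
    (Γ.induce (g • (Subgroup.zpowers s : Set Q))).Connected := by
  refine conn_of_base (b := g) ⟨1, Subgroup.one_mem _, by simp⟩ ?_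
  rintro _ ⟨x, hx, rfl⟩
  have hx' : x ∈ Submonoid.powers s := mem_powers_iff_mem_zpowers.2 hx
  obtain ⟨n, rfl⟩ := hx'
  clear hx
  induction n with
  | zero => simpa using Relation.ReflTransGen.refl
  | succ n ih =>
    refine ih.tail ⟨?_, ?_⟩
    · simp only [smul_eq_mul]
      rw [pow_succ, ← mul_assoc]
      exact hs _
    · exact ⟨s ^ (n + 1), Subgroup.npow_mem_zpowers s (n + 1), rfl⟩

theorem normalizes (hQ : Big h Q) {Γ : SimpleGraph Q} {s t : Q} (hs : ∀ g, Γ.Adj g (g * s))
    (ht : ∀ g, Γ.Adj g (g * t)) (hno : ¬ HasKMinor Γ h) (htS : t ∉ Subgroup.zpowers s) :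
    t⁻¹ * s * t ∈ Subgroup.zpowers s := by
  by_contra hcon
  apply hno
  set S : Subgroup Q := Subgroup.zpowers s with hS
  have hmem : ∀ g x : Q, x ∈ g • (S : Set Q) ↔ g⁻¹ * x ∈ S := by
    intro g x
    rw [Set.mem_smul_set_iff_inv_smul_mem]
    rfl
  refine dense_family (Set.range fun g : Q => g • (S : Set Q)) ⟨_, 1, rfl⟩ ?_ ?_ ?_
  · rintro _ ⟨g, rfl⟩
    exact coset_conn hs g
  · rintro _ ⟨g, rfl⟩ _ ⟨g', rfl⟩ hne
    rw [Set.disjoint_left]
    intro x hx hx'
    apply hne
    rw [hmem] at hx hx'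
    ext y
    simp only [hmem]
    have h1 : g⁻¹ * y = (g⁻¹ * x) * (g'⁻¹ * x)⁻¹ * (g'⁻¹ * y) := by group
    have h2 : g'⁻¹ * y = (g'⁻¹ * x) * (g⁻¹ * x)⁻¹ * (g⁻¹ * y) := by group
    constructor
    · intro hy
      rw [h2]
      exact S.mul_mem (S.mul_mem hx' (S.inv_mem hx)) hy
    · intro hy
      rw [h1]
      exact S.mul_mem (S.mul_mem hx (S.inv_mem hx')) hy
  · rintro _ ⟨g, rfl⟩
    have h1 : NN h ≤ (orbit S (t • (S : Set Q))).ncard := by
      refine orbit_big hQ S (t • (S : Set Q)) (g := s) (Subgroup.mem_zpowers s) ?_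
      intro heq
      apply hcon
      have h2 : s * t ∈ s • t • (S : Set Q) := by
        rw [smul_smul, hmem]
        simp
      rw [heq, hmem] at h2
      rwa [mul_assoc]
    have h2 : (orbit S (t • (S : Set Q))).ncard =
        ((fun A : Set Q => g • A) '' (orbit S (t • (S : Set Q)))).ncard := by
      rw [Set.ncard_image_of_injective]
      exact MulAction.injective g
    have h3 : 2 ^ h ≤ NN h := by unfold NN; omega
    refine h3.trans (h1.trans (h2.le.trans (Set.ncard_le_ncard ?_ (Set.toFinite _))))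
    rintro _ ⟨_, ⟨x, rfl⟩, rfl⟩
    have e1 : g • (x • t • (S : Set Q)) = (g * x * t) • (S : Set Q) := by
      rw [Subgroup.smul_def, smul_smul, smul_smul]
    simp only
    rw [e1]
    refine ⟨⟨_, rfl⟩, ?_, g * x, ?_, g * x * t, ?_, ht _⟩
    · intro heq
      have h4 : g * x * t ∈ (g * x * t) • (S : Set Q) := by
        rw [hmem, inv_mul_cancel]; exact S.one_mem
      rw [heq, hmem] at h4
      apply htS
      have h5 : t = (x : Q)⁻¹ * (g⁻¹ * (g * x * t)) := by group
      rw [h5]
      exact S.mul_mem (S.inv_mem x.2) h4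
    · rw [hmem]
      have : g⁻¹ * (g * x) = x := by group
      rw [this]
      exact x.2
    · rw [hmem, inv_mul_cancel]; exact S.one_mem

theorem comm_gen (hQ : Big h Q) {Γ : SimpleGraph Q} {s t : Q} (hs : ∀ g, Γ.Adj g (g * s))
    (ht : ∀ g, Γ.Adj g (g * t)) (hno : ¬ HasKMinor Γ h) : s * t = t * s := by
  by_contra hne
  have htS : t ∉ Subgroup.zpowers s := by
    intro hh
    obtain ⟨n, rfl⟩ := Subgroup.mem_zpowers_iff.1 hh
    exact hne (by rw [← zpow_one_add, ← zpow_add_one, add_comm])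
  have hsT : s ∉ Subgroup.zpowers t := by
    intro hh
    obtain ⟨n, rfl⟩ := Subgroup.mem_zpowers_iff.1 hh
    exact hne (by rw [← zpow_one_add, ← zpow_add_one, add_comm])
  have n1 := normalizes hQ hs ht hno htS
  have n2 := normalizes hQ ht hs hno hsT
  -- the commutator
  set c : Q := s⁻¹ * (t⁻¹ * s * t) with hc
  have hcs : c ∈ Subgroup.zpowers s := Subgroup.mul_mem _ (Subgroup.inv_mem _ (Subgroup.mem_zpowers s)) n1
  have hct : c ∈ Subgroup.zpowers t := by
    have : c = (s⁻¹ * t * s)⁻¹ * t := by rw [hc]; group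
    rw [this]
    exact Subgroup.mul_mem _ (Subgroup.inv_mem _ n2) (Subgroup.mem_zpowers t)
  have ccs : Commute c s := by
    obtain ⟨n, hn⟩ := Subgroup.mem_zpowers_iff.1 hcs
    rw [← hn]
    exact (Commute.refl s).zpow_left n
  have cct : Commute c t := by
    obtain ⟨n, hn⟩ := Subgroup.mem_zpowers_iff.1 hct
    rw [← hn]
    exact (Commute.refl t).zpow_left n
  have hc1 : c ≠ 1 := by
    intro h1
    apply hne
    have : s * t = t * (s * c) := by rw [hc]; group
    rw [this, h1, mul_one]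
  have hm : NN h ≤ orderOf c := by
    refine big_dvd hQ (orderOf_dvd_natCard c) ?_
    rw [Ne, orderOf_eq_one_iff]
    exact hc1
  have hst : ∀ x : ℕ, s ^ x * t = t * (s ^ x * c ^ x) := by
    intro x
    have h1 : t⁻¹ * s * t = s * c := by rw [hc]; group
    have h2 : t⁻¹ * s ^ x * t = (s * c) ^ x := by
      rw [← h1]
      have := conj_pow (i := x) (a := t⁻¹) (b := s)
      rw [inv_inv] at this
      exact this.symm
    rw [(ccs.symm).mul_pow] at h2
    rw [← h2]; group
  -- exponents small compared to the order of `c`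
  have inj1 : ∀ x x' : ℕ, x < NN h → x' < NN h → ∀ y y' : ℕ, y < NN h → y' < NN h →
      s ^ x * c ^ y = s ^ x' * c ^ y' → x = x' ∧ y = y' := by
    intro x x' hx hx' y y' hy hy' he
    have h1 : s ^ x * c ^ y * t = s ^ x' * c ^ y' * t := by rw [he]
    have h2 : ∀ a b : ℕ, s ^ a * c ^ b * t = t * (s ^ a * c ^ b) * c ^ a := by
      intro a b
      have e1 : c ^ b * t = t * c ^ b := (cct.pow_left b).eq
      have e2 : c ^ a * c ^ b = c ^ b * c ^ a := ((Commute.refl c).pow_pow a b).eq
      calc s ^ a * c ^ b * t = s ^ a * (c ^ b * t) := by group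
        _ = (s ^ a * t) * c ^ b := by rw [e1]; group
        _ = t * s ^ a * (c ^ a * c ^ b) := by rw [hst]; group
        _ = t * (s ^ a * c ^ b) * c ^ a := by rw [e2]; group
    rw [h2, h2, he] at h1
    have h3 : c ^ x = c ^ x' := mul_left_cancel h1
    have h4 : x = x' := pow_injOn_Iio_orderOf (lt_of_lt_of_le hx hm) (lt_of_lt_of_le hx' hm) h3
    subst h4
    have h5 : c ^ y = c ^ y' := mul_left_cancel he
    exact ⟨rfl, pow_injOn_Iio_orderOf (lt_of_lt_of_le hy hm) (lt_of_lt_of_le hy' hm) h5⟩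
  have hNN : 2 * h + 1 < NN h := by
    have : 1 ≤ 2 ^ h := Nat.one_le_two_pow
    unfold NN; omega
  have memS : ∀ a b : ℕ, s ^ a * c ^ b ∈ Subgroup.zpowers s := fun a b =>
    Subgroup.mul_mem _ (Subgroup.npow_mem_zpowers s a) (Subgroup.pow_mem _ hcs b)
  apply hno
  have arc : ∀ (g : Q) (b : ℕ), (Γ.induce {y : Q | ∃ x < 2 * h + 1, y = g * (s ^ x * c ^ b)}).Connected := by
    intro g b
    refine conn_of_base (b := g * (s ^ 0 * c ^ b)) ⟨0, by omega, rfl⟩ ?_
    rintro _ ⟨x, hx, rfl⟩
    induction x with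
    | zero => exact Relation.ReflTransGen.refl
    | succ x ih =>
      refine (ih (by omega)).tail ⟨?_, ⟨x + 1, hx, rfl⟩⟩
      have : g * (s ^ (x + 1) * c ^ b) = g * (s ^ x * c ^ b) * s := by
        have e1 : c ^ b * s = s * c ^ b := (ccs.pow_left b).eq
        rw [mul_assoc, mul_assoc, e1, pow_succ]; group
      rw [this]
      exact hs _
  refine hasKMinor_of_biclique
    (fun i : Fin h => {y : Q | ∃ x < 2 * h + 1, y = 1 * (s ^ x * c ^ (i : ℕ))})
    (fun j : Fin h => {y : Q | ∃ x < 2 * h + 1, y = t * (s ^ x * c ^ (h + j : ℕ))})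
    (fun i => arc 1 i) (fun j => arc t (h + j)) ?_ ?_ ?_ ?_
  · intro i j hij
    rw [Set.disjoint_left]
    rintro _ ⟨x, hx, rfl⟩ ⟨x', hx', he⟩
    apply hij
    rw [one_mul, one_mul] at he
    exact Fin.ext (inj1 x x' (by omega) (by omega) i j (by omega) (by omega) he).2
  · intro i j hij
    rw [Set.disjoint_left]
    rintro _ ⟨x, hx, rfl⟩ ⟨x', hx', he⟩
    apply hij
    have := (inj1 x x' (by omega) (by omega) _ _ (by omega) (by omega) (mul_left_cancel he)).2
    exact Fin.ext (by omega)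
  · intro i j
    rw [Set.disjoint_left]
    rintro _ ⟨x, hx, rfl⟩ ⟨x', hx', he⟩
    apply htS
    have h1 : t = (s ^ x * c ^ (i : ℕ)) * (s ^ x' * c ^ (h + j : ℕ))⁻¹ := by
      rw [one_mul] at he
      rw [he]; group
    rw [h1]
    exact Subgroup.mul_mem _ (memS _ _) (Subgroup.inv_mem _ (memS _ _))
  · intro i j
    have hi := i.2
    have hj := j.2
    refine ⟨_, ⟨h + j - i, by omega, rfl⟩, _, ⟨h + j - i, by omega, rfl⟩, ?_⟩
    have : t * (s ^ (h + j - i : ℕ) * c ^ (h + j : ℕ)) =
        1 * (s ^ (h + j - i : ℕ) * c ^ (i : ℕ)) * t := by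
      obtain ⟨k, hk⟩ : ∃ k : ℕ, k = h + j - i := ⟨_, rfl⟩
      have e0 : (h + j : ℕ) = k + i := by omega
      have e1 : c ^ (i : ℕ) * t = t * c ^ (i : ℕ) := (cct.pow_left _).eq
      rw [← hk, e0]
      calc t * (s ^ k * c ^ (k + (i : ℕ))) = t * (s ^ k * c ^ k) * c ^ (i : ℕ) := by
            rw [pow_add]; simp only [mul_assoc]
        _ = s ^ k * (t * c ^ (i : ℕ)) := by rw [← hst]; simp only [mul_assoc]
        _ = 1 * (s ^ k * c ^ (i : ℕ)) * t := by rw [← e1, one_mul]; simp only [mul_assoc]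
    rw [this]
    exact ht _

end Gen

/-- a finite group acting freely on a connected graph without `K_h` minor is commutative if its
order has no small prime divisors -/
theorem comm_of_free {h : ℕ} {U Q : Type} [Finite U] [Group Q] [Finite Q] [MulAction Q U]
    {Y : SimpleGraph U} (hconn : Y.Connected)
    (hadj : ∀ (g : Q) (u v : U), Y.Adj u v → Y.Adj (g • u) (g • v))
    (hfree : ∀ (g : Q) (u : U), g • u = u → g = 1) (hQ : Big h Q) (hno : ¬ HasKMinor Y h)
    (a b : Q) : a * b = b * a := by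
  have hconn' : (Y.induce (Set.univ : Set U)).Connected := by
    obtain ⟨x⟩ := hconn.nonempty
    refine conn_of_base (b := x) trivial fun a _ => ?_
    obtain ⟨w⟩ := hconn.preconnected x a
    induction w with
    | nil => exact Relation.ReflTransGen.refl
    | cons hadj _ ih => exact Relation.ReflTransGen.head ⟨hadj, trivial⟩ (ih trivial)
  obtain ⟨T, _, hTc, hT1, hT2⟩ := exists_transversal (R := Q) Set.univ hadj (fun _ _ _ => trivial)
    hconn'
  have huniq : ∀ (g g' : Q), ∀ t ∈ T, ∀ t' ∈ T, g • t = g' • t' → g = g' := by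
    intro g g' t ht t' ht' he
    have h1 : (g'⁻¹ * g) • t = t' := by rw [mul_smul, he, inv_smul_smul]
    have h2 := hT2 t ht t' ht' _ h1
    subst h2
    have h3 := hfree _ _ h1
    rw [inv_mul_eq_one] at h3
    exact h3.symm
  obtain ⟨⟨t0, ht0⟩⟩ := hTc.nonempty
  let S : Set Q := {s | s ≠ 1 ∧ ∃ a ∈ T, ∃ b ∈ T, Y.Adj a (s • b)}
  let Γ : SimpleGraph Q :=
    { Adj := fun g g' => g⁻¹ * g' ∈ S
      symm := ⟨by
        rintro g g' ⟨h1, a, ha, b, hb, hab⟩
        refine ⟨?_, b, hb, a, ha, ?_⟩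
        · intro h2
          apply h1
          rw [← inv_inj, ← h2]; simp [h2]
        · have := hadj (g'⁻¹ * g) _ _ hab.symm
          rw [smul_smul] at this
          simpa using this⟩
      loopless := ⟨fun g h => h.1 (by simp)⟩ }
  have hmin : IsMinor Γ Y := by
    refine ⟨fun g => g • T, ?_, ?_, ?_⟩
    · intro g
      refine conn_of_base (b := g • t0) (Set.smul_mem_smul_set ht0) ?_
      rintro _ ⟨a, ha, rfl⟩
      refine Relation.ReflTransGen.lift (fun x => g • x) ?_ _ _ (step_of_conn hTc ht0 ha)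
      rintro x y ⟨h1, h2⟩
      exact ⟨hadj g _ _ h1, Set.smul_mem_smul_set h2⟩
    · intro g g' hne
      rw [Set.disjoint_left]
      rintro _ ⟨t, ht, rfl⟩ ⟨t', ht', he⟩
      exact hne (huniq g g' t ht t' ht' he.symm)
    · rintro g g' ⟨_, a, ha, b, hb, hab⟩
      refine ⟨g • a, Set.smul_mem_smul_set ha, g' • b, Set.smul_mem_smul_set hb, ?_⟩
      have := hadj g _ _ hab
      rw [smul_smul] at this
      simpa using this
  have hnoΓ : ¬ HasKMinor Γ h := fun hk => hno (HasKMinor.of_minor hk hmin)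
  have hcomm : ∀ s ∈ S, ∀ t ∈ S, s * t = t * s := by
    intro s hs t ht
    refine comm_gen (h := h) (Γ := Γ) hQ ?_ ?_ hnoΓ
    · intro g
      change g⁻¹ * (g * s) ∈ S
      rwa [inv_mul_cancel_left]
    · intro g
      change g⁻¹ * (g * t) ∈ S
      rwa [inv_mul_cancel_left]
  have hgen : Subgroup.closure S = ⊤ := by
    rw [eq_top_iff]
    intro q _
    have key : ∀ y : U, ∃ m ∈ Subgroup.closure S, ∃ t ∈ T, y = m • t := by
      intro y
      obtain ⟨w⟩ := hconn.preconnected t0 y
      have hw : ∀ (u v : U) (w : Y.Walk u v), (∃ m ∈ Subgroup.closure S, ∃ t ∈ T, u = m • t) →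
          ∃ m ∈ Subgroup.closure S, ∃ t ∈ T, v = m • t := by
        intro u v w
        induction w with
        | nil => exact id
        | @cons u v w' huv _ ih =>
          rintro ⟨m, hm, t, ht, rfl⟩
          apply ih
          obtain ⟨r, t', ht', rfl⟩ := hT1 v trivial
          have h1 : Y.Adj t ((m⁻¹ * r) • t') := by
            have := hadj m⁻¹ _ _ huv
            rw [inv_smul_smul, smul_smul] at this
            exact this
          by_cases h2 : m⁻¹ * r = 1
          · rw [inv_mul_eq_one] at h2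
            exact ⟨m, hm, t', ht', by rw [h2]⟩
          · refine ⟨r, ?_, t', ht', rfl⟩
            have h3 : m⁻¹ * r ∈ Subgroup.closure S :=
              Subgroup.subset_closure ⟨h2, t, ht, t', ht', h1⟩
            have h4 : r = m * (m⁻¹ * r) := by group
            rw [h4]
            exact Subgroup.mul_mem _ hm h3
      exact hw _ _ w ⟨1, Subgroup.one_mem _, t0, ht0, (one_smul _ _).symm⟩
    obtain ⟨m, hm, t, ht, he⟩ := key (q • t0)
    rw [huniq q m t0 ht0 t ht he]
    exact hm
  have h1 : ∀ x ∈ Subgroup.closure S, ∀ y ∈ Subgroup.closure S, x * y = y * x := by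
    intro x hx y hy
    exact congrArg Subtype.val
      ((Subgroup.isMulCommutative_closure hcomm).is_comm.comm ⟨x, hx⟩ ⟨y, hy⟩)
  exact h1 a (by rw [hgen]; trivial) b (by rw [hgen]; trivial)

/-- semifree version: elements fixing a point act trivially -/
theorem comm_of_semifree {h : ℕ} {U M : Type} [Finite U] [Group M] [Finite M] [MulAction M U]
    {Y : SimpleGraph U} (hconn : Y.Connected)
    (hadj : ∀ (g : M) (u v : U), Y.Adj u v → Y.Adj (g • u) (g • v))
    (hfree : ∀ (g : M) (u v : U), g • u = u → g • v = v) (hM : Big h M) (hno : ¬ HasKMinor Y h)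
    (a b : M) (u : U) : a • b • u = b • a • u := by
  let φ : M →* Equiv.Perm U := MulAction.toPermHom M U
  have hcard : Nat.card φ.range ∣ Nat.card M := Subgroup.card_range_dvd φ
  have hbig : Big h φ.range := fun p hp hd => hM p hp (hd.trans hcard)
  have h1 := comm_of_free (h := h) (U := U) (Q := φ.range) (Y := Y) hconn ?_ ?_ hbig hno
    ⟨φ a, a, rfl⟩ ⟨φ b, b, rfl⟩
  · have h2 := congrArg Subtype.val h1
    exact Equiv.Perm.congr_fun h2 u
  · rintro ⟨_, g, rfl⟩ u v huv
    exact hadj g u v huv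
  · rintro ⟨_, g, rfl⟩ u hu
    have hu' : g • u = u := hu
    apply Subtype.ext
    apply Equiv.Perm.ext
    intro v
    exact hfree g u v hu'

end Pool.Agent.W129.BC
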