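import Pool.Agent.W129.BC.Free

/-!
The vertices with stabilizers of least order, in a graph without `K_h` minor on which a group acts
whose order has no small prime divisors.
-/

set_option autoImplicit false
set_option linter.unusedSectionVars false

namespace Pool.Agent.W129.BC

open SimpleGraph MulAction Pool.Agent.Helper999.HM
open scoped Pointwise

/-- the data of the induction: `G` acts faithfully on the graph `X`, it has no small prime
divisors, `X` has no `K_h` minor, and `G` contains every permutation which agrees locally with the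
elements of `G` -/
structure Setup (h : ℕ) (G : Type) {V : Type} [Group G] [MulAction G V] (X : SimpleGraph V) :
    Prop where
  adj : ∀ (g : G) (u v : V), X.Adj u v → X.Adj (g • u) (g • v)
  nok : ¬ HasKMinor X h
  big : Big h G
  faithful : ∀ g : G, (∀ v : V, g • v = v) → g = 1
  full : ∀ f : V → V, Function.Injective f → (∀ v, ∃ g : G, f v = g • v) →
    (∀ u v, X.Adj u v → ∃ g : G, f u = g • u ∧ f v = g • v) → ∃ g : G, ∀ v, g • v = f v

variable {h : ℕ} {V G : Type} [Finite V] [Group G] [Finite G] [MulAction G V] {X : SimpleGraph V}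

theorem smul_adj (S : Setup h G X) (g : G) {u v : V} : X.Adj (g • u) (g • v) ↔ X.Adj u v := by
  constructor
  · intro huv
    have := S.adj g⁻¹ _ _ huv
    simpa using this
  · exact S.adj g u v

theorem conn_smul (S : Setup h G X) {A : Set V} (hA : (X.induce A).Connected) (g : G) :
    (X.induce (g • A)).Connected := by
  obtain ⟨⟨t0, ht0⟩⟩ := hA.nonempty
  refine conn_of_base (b := g • t0) (Set.smul_mem_smul_set ht0) ?_
  rintro _ ⟨a, ha, rfl⟩
  refine Relation.ReflTransGen.lift (fun x => g • x) ?_ _ _ (step_of_conn hA ht0 ha)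
  rintro x y ⟨h1, h2⟩
  exact ⟨S.adj g _ _ h1, Set.smul_mem_smul_set h2⟩

/-- the sets `A` and `B` are joined by an edge -/
def Touch (X : SimpleGraph V) (A B : Set V) : Prop := ∃ a ∈ A, ∃ b ∈ B, X.Adj a b

omit [Finite V] in
theorem Touch.symm {A B : Set V} (hT : Touch X A B) : Touch X B A := by
  obtain ⟨a, ha, b, hb, hab⟩ := hT
  exact ⟨b, hb, a, ha, hab.symm⟩

theorem touch_smul (S : Setup h G X) (g : G) {A B : Set V} (hT : Touch X A B) :
    Touch X (g • A) (g • B) := by
  obtain ⟨a, ha, b, hb, hab⟩ := hT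
  exact ⟨g • a, Set.smul_mem_smul_set ha, g • b, Set.smul_mem_smul_set hb, S.adj g _ _ hab⟩

/-- many neighbours in the family -/
theorem nbr_count (S : Setup h G X) {A B : Set V} (hT : Touch X A B) {F : Set (Set V)}
    (hF : ∀ g : G, g • B ∈ F) {g : G} (hg : g ∈ stabilizer G A) (hg' : g ∉ stabilizer G B)
    (γ : G) : 2 ^ h ≤ {C ∈ F | C ≠ γ • A ∧ ∃ a ∈ γ • A, ∃ c ∈ C, X.Adj a c}.ncard := by
  have h1 : NN h ≤ (orbit (stabilizer G A) B).ncard := orbit_big S.big _ _ hg hg'
  have h2 : (orbit (stabilizer G A) B).ncard =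
      ((fun C : Set V => γ • C) '' (orbit (stabilizer G A) B)).ncard := by
    rw [Set.ncard_image_of_injective]
    exact MulAction.injective γ
  have h3 := Set.pred_ncard_le_ncard_sdiff_singleton
    ((fun C : Set V => γ • C) '' (orbit (stabilizer G A) B)) (γ • A)
  have h4 : 2 ^ h ≤ NN h - 1 := by unfold NN; omega
  refine h4.trans ((Nat.sub_le_sub_right (h1.trans h2.le) 1).trans
    (h3.trans (Set.ncard_le_ncard ?_ (Set.toFinite _))))
  rintro _ ⟨⟨_, ⟨x, rfl⟩, rfl⟩, hne⟩
  have hx : x.1 • A = A := x.2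
  refine ⟨?_, hne, ?_⟩
  · have := hF (γ * x.1)
    rw [mul_smul] at this
    exact this
  · have := touch_smul S γ (touch_smul S x.1 hT)
    rw [hx] at this
    exact this

/-- two touching sets whose translates are disjoint have comparable stabilizers -/
theorem two_orbits (S : Setup h G X) {A B : Set V} (hA : (X.induce A).Connected)
    (hB : (X.induce B).Connected)
    (hd : ∀ C ∈ orbit G A ∪ orbit G B, ∀ D ∈ orbit G A ∪ orbit G B, C ≠ D → Disjoint C D)
    (hT : Touch X A B) : stabilizer G A ≤ stabilizer G B ∨ stabilizer G B ≤ stabilizer G A := by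
  by_contra hcon
  rw [not_or, SetLike.not_le_iff_exists, SetLike.not_le_iff_exists] at hcon
  obtain ⟨⟨g1, hg1, hg1'⟩, g2, hg2, hg2'⟩ := hcon
  apply S.nok
  refine dense_family (orbit G A ∪ orbit G B) ⟨A, Or.inl (mem_orbit_self A)⟩ ?_ hd ?_
  · rintro _ (⟨g, rfl⟩ | ⟨g, rfl⟩)
    · exact conn_smul S hA g
    · exact conn_smul S hB g
  · rintro _ (⟨g, rfl⟩ | ⟨g, rfl⟩)
    · exact nbr_count S hT (fun g => Or.inr ⟨g, rfl⟩) hg1 hg1' g
    · exact nbr_count S hT.symm (fun g => Or.inl ⟨g, rfl⟩) hg2 hg2' g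

omit [Finite V] [Finite G] in
theorem stab_singleton (v : V) : stabilizer G ({v} : Set V) = stabilizer G v := by
  ext g
  simp [mem_stabilizer_iff]

/-- stabilizers are nested along the edges -/
theorem edge_stab (S : Setup h G X) {u v : V} (huv : X.Adj u v)
    (hc : Nat.card (stabilizer G u) ≤ Nat.card (stabilizer G v)) :
    stabilizer G u ≤ stabilizer G v := by
  have h1 := two_orbits S (A := {u}) (B := {v}) (conn_singleton X u) (conn_singleton X v) ?_
    ⟨u, rfl, v, rfl, huv⟩
  · rw [stab_singleton, stab_singleton] at h1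
    rcases h1 with h1 | h1
    · exact h1
    · exact (Subgroup.eq_of_le_of_card_ge h1 hc).ge
  · have hs : ∀ C ∈ orbit G ({u} : Set V) ∪ orbit G ({v} : Set V), ∃ x, C = {x} := by
      rintro _ (⟨g, rfl⟩ | ⟨g, rfl⟩)
      · exact ⟨g • u, by simp⟩
      · exact ⟨g • v, by simp⟩
    intro C hC D hD hne
    obtain ⟨x, rfl⟩ := hs C hC
    obtain ⟨y, rfl⟩ := hs D hD
    rw [Set.disjoint_singleton]
    rintro rfl
    exact hne rfl

/-- vertices with stabilizer of order `m` -/
def LL (G : Type) {V : Type} [Group G] [MulAction G V] (m : ℕ) : Set V :=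
  {v | Nat.card (stabilizer G v) = m}

/-- component of `v` in the level `L` -/
def cp {V : Type} (X : SimpleGraph V) (L : Set V) (v : V) : Set V :=
  {x | Relation.ReflTransGen (StepIn X L) v x}

omit [Finite V] [Finite G] in
theorem LL_smul {m : ℕ} (g : G) {v : V} : g • v ∈ LL G m ↔ v ∈ LL G (V := V) m := by
  have key : ∀ (g : G) (v : V), Nat.card (stabilizer G (g • v)) = Nat.card (stabilizer G v) := by
    intro g v
    exact (Nat.card_congr (stabilizerEquivStabilizer (g := g) (a := v) (b := g • v) rfl).toEquiv).symm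
  simp only [LL, Set.mem_ofPred_eq, key]

section cp

variable {L : Set V}

omit [Finite V] in
theorem mem_cp (v : V) : v ∈ cp X L v := Relation.ReflTransGen.refl

omit [Finite V] in
theorem cp_sub {v : V} (hv : v ∈ L) : cp X L v ⊆ L := by
  intro x hx
  rcases Relation.ReflTransGen.cases_tail hx with h | ⟨w, _, h⟩
  · rw [h]; exact hv
  · exact h.2

omit [Finite V] in
theorem cp_closed {v x y : V} (hx : x ∈ cp X L v) (hxy : X.Adj x y) (hy : y ∈ L) :
    y ∈ cp X L v := Relation.ReflTransGen.tail hx ⟨hxy, hy⟩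

omit [Finite V] in
theorem cp_symm {v x : V} (hv : v ∈ L) (hx : x ∈ cp X L v) : v ∈ cp X L x := by
  induction hx with
  | refl => exact Relation.ReflTransGen.refl
  | @tail y z hy hstep ih =>
    have hyL : y ∈ L := cp_sub hv hy
    exact Relation.ReflTransGen.head ⟨hstep.1.symm, hyL⟩ ih

omit [Finite V] in
theorem cp_eq {v x : V} (hv : v ∈ L) (hx : x ∈ cp X L v) : cp X L x = cp X L v := by
  ext y
  exact ⟨fun hy => Relation.ReflTransGen.trans hx hy,
    fun hy => Relation.ReflTransGen.trans (cp_symm hv hx) hy⟩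

omit [Finite V] in
theorem cp_eq_of_mem {v w x : V} (hv : v ∈ L) (hw : w ∈ L) (hx : x ∈ cp X L v)
    (hx' : x ∈ cp X L w) : cp X L v = cp X L w := by
  rw [← cp_eq hv hx, ← cp_eq hw hx']

omit [Finite V] in
theorem cp_conn (v : V) : (X.induce (cp X L v)).Connected := by
  refine conn_of_base (b := v) (mem_cp v) ?_
  intro a ha
  have key : ∀ a, Relation.ReflTransGen (StepIn X L) v a →
      Relation.ReflTransGen (StepIn X (cp X L v)) v a := by
    intro a ha
    induction ha with
    | refl => exact Relation.ReflTransGen.refl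
    | @tail y z hy hstep ih => exact ih.tail ⟨hstep.1, Relation.ReflTransGen.tail hy hstep⟩
  exact key a ha

end cp

variable {m : ℕ}

theorem cp_smul (S : Setup h G X) (g : G) (v : V) :
    g • cp X (LL G m) v = cp X (LL G m) (g • v) := by
  have key : ∀ (g : G) (v x : V), x ∈ cp X (LL G m) v → g • x ∈ cp X (LL G m) (g • v) := by
    intro g v x hx
    refine Relation.ReflTransGen.lift (fun x => g • x) ?_ _ _ hx
    rintro x y ⟨h1, h2⟩
    exact ⟨S.adj g _ _ h1, (LL_smul g).2 h2⟩
  ext x
  rw [Set.mem_smul_set_iff_inv_smul_mem]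
  constructor
  · intro hx
    have := key g _ _ hx
    rwa [smul_inv_smul] at this
  · intro hx
    have := key g⁻¹ _ _ hx
    rwa [inv_smul_smul] at this

/-- the stabilizers are constant on the components of a level -/
theorem stab_cp (S : Setup h G X) {v x : V} (hv : v ∈ LL G (V := V) m)
    (hx : x ∈ cp X (LL G m) v) : stabilizer G x = stabilizer G v := by
  induction hx with
  | refl => rfl
  | @tail y z hy hstep ih =>
    rw [← ih]
    have h1 : Nat.card (stabilizer G y) = m := cp_sub hv hy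
    have h2 : Nat.card (stabilizer G z) = m := hstep.2
    exact le_antisymm (edge_stab S hstep.1.symm (by omega)) (edge_stab S hstep.1 (by omega))

theorem HasKMinor_induce {K : Set V} (hk : HasKMinor (X.induce K) h) : HasKMinor X h := by
  refine HasKMinor.of_minor hk ⟨fun x => {x.1}, fun x => conn_singleton X _, ?_, ?_⟩
  · intro x y hxy
    rw [Set.disjoint_singleton]
    exact fun he => hxy (Subtype.ext he)
  · intro x y hxy
    exact ⟨x.1, rfl, y.1, rfl, by simpa using hxy⟩

/-- commutation on a component -/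
theorem comm_cp (S : Setup h G X) {v : V} (hv : v ∈ LL G (V := V) m)
    {a b : G} (ha : a ∈ stabilizer G (cp X (LL G m) v)) (hb : b ∈ stabilizer G (cp X (LL G m) v))
    {x : V} (hx : x ∈ cp X (LL G m) v) : a • b • x = b • a • x := by
  set K := cp X (LL G m) v with hK
  have h1 := comm_of_semifree (h := h) (U := K) (M := stabilizer G K) (Y := X.induce K) (cp_conn v)
    ?_ ?_ (S.big.subgroup _) (fun hk => S.nok (HasKMinor_induce hk)) ⟨a, ha⟩ ⟨b, hb⟩ ⟨x, hx⟩
  · exact congrArg Subtype.val h1
  · rintro g ⟨u, hu⟩ ⟨w, hw⟩ huw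
    have : X.Adj u w := by simpa using huw
    exact S.adj g.1 _ _ this
  · rintro g ⟨u, hu⟩ ⟨w, hw⟩ hgu
    have h2 : g.1 • u = u := congrArg Subtype.val hgu
    have h3 : stabilizer G u = stabilizer G w := (stab_cp S hv hu).trans (stab_cp S hv hw).symm
    have h4 : g.1 ∈ stabilizer G w := h3 ▸ (show g.1 ∈ stabilizer G u from h2)
    exact Subtype.ext h4

/-- `w` is a neighbour of the component `K` of `v` -/
def Nb (X : SimpleGraph V) (L : Set V) (v : V) : Set V :=
  {w | w ∉ cp X L v ∧ ∃ x ∈ cp X L v, X.Adj x w}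

omit [Finite V] in
theorem nb_notL {L : Set V} {v w : V} (hw : w ∈ Nb X L v) : w ∉ L := by
  intro hL
  obtain ⟨h1, x, hx, hxw⟩ := hw
  exact h1 (cp_closed hx hxw hL)

theorem nb_smul (S : Setup h G X) (g : G) {v w : V} :
    g • w ∈ Nb X (LL G m) (g • v) ↔ w ∈ Nb X (LL G m) v := by
  have key : ∀ (g : G) (v w : V), w ∈ Nb X (LL G m) v → g • w ∈ Nb X (LL G m) (g • v) := by
    rintro g v w ⟨h1, x, hx, hxw⟩
    refine ⟨?_, g • x, ?_, S.adj g _ _ hxw⟩
    · rw [← cp_smul S, Set.smul_mem_smul_set_iff]; exact h1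
    · rw [← cp_smul S, Set.smul_mem_smul_set_iff]; exact hx
  constructor
  · intro hw
    have := key g⁻¹ _ _ hw
    rwa [inv_smul_smul, inv_smul_smul] at this
  · exact key g v w

/-- the stabilizer of a component of the lowest level fixes the neighbours of the component -/
theorem fix_nb (S : Setup h G X) (hm : ∀ v : V, m ≤ Nat.card (stabilizer G v)) {v w : V}
    (hv : v ∈ LL G (V := V) m) (hw : w ∈ Nb X (LL G m) v) :
    stabilizer G (cp X (LL G m) v) ≤ stabilizer G w := by
  classical
  have hwL := nb_notL hw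
  obtain ⟨hwK, x, hx, hxw⟩ := hw
  have hxL : x ∈ LL G (V := V) m := cp_sub hv hx
  set K := cp X (LL G m) v with hK
  have hcard : m < Nat.card (stabilizer G w) := lt_of_le_of_ne (hm w) fun h => hwL h.symm
  have hxw' : stabilizer G x ≤ stabilizer G w := by
    refine edge_stab S hxw ?_
    have : Nat.card (stabilizer G x) = m := hxL
    omega
  have hdisj : ∀ C ∈ orbit G K ∪ orbit G ({w} : Set V), ∀ D ∈ orbit G K ∪ orbit G ({w} : Set V),
      C ≠ D → Disjoint C D := by
    have h1 : ∀ g : G, g • K ⊆ LL G (V := V) m := by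
      intro g
      rw [hK, cp_smul S]
      exact cp_sub ((LL_smul g).2 hv)
    have h2 : ∀ g : G, g • w ∉ LL G (V := V) m := fun g hg => hwL ((LL_smul g).1 hg)
    rintro _ (⟨g, rfl⟩ | ⟨g, rfl⟩) _ (⟨g', rfl⟩ | ⟨g', rfl⟩) hne
    · rw [Set.disjoint_left]
      intro y hy hy'
      apply hne
      change g • K = g' • K
      change y ∈ g • K at hy
      change y ∈ g' • K at hy'
      rw [hK, cp_smul S] at hy hy'
      rw [hK, cp_smul S, cp_smul S]
      exact cp_eq_of_mem ((LL_smul g).2 hv) ((LL_smul g').2 hv) hy hy'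
    · simp only [Set.smul_set_singleton]
      rw [Set.disjoint_singleton_right]
      exact fun hh => h2 g' (h1 g hh)
    · simp only [Set.smul_set_singleton]
      rw [Set.disjoint_singleton_left]
      exact fun hh => h2 g (h1 g' hh)
    · simp only [Set.smul_set_singleton] at hne ⊢
      rw [Set.disjoint_singleton]
      exact fun hh => hne (by rw [hh])
  have h12 := two_orbits S (A := K) (B := {w}) (cp_conn v) (conn_singleton X w) hdisj
    ⟨x, hx, w, rfl, hxw⟩
  rw [stab_singleton] at h12
  rcases h12 with h12 | h12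
  · exact h12
  · by_contra hcon
    rw [SetLike.not_le_iff_exists] at hcon
    obtain ⟨n, hn, hnw⟩ := hcon
    apply S.nok
    -- hubs
    have hhub : NN h ≤ (orbit (stabilizer G K) w).ncard := orbit_big S.big _ _ hn hnw
    -- the group fixing `w`
    set R := stabilizer G w with hR
    have hRne : ¬ R ≤ stabilizer G x := by
      intro hle
      have h1 : R = stabilizer G x := le_antisymm hle hxw'
      have h2 : Nat.card (stabilizer G x) = m := hxL
      rw [← h1] at h2
      omega
    rw [SetLike.not_le_iff_exists] at hRne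
    obtain ⟨r1, hr1, hr1x⟩ := hRne
    have hRK : ∀ (r : R), ∀ y ∈ K, r • y ∈ K := by
      intro r y hy
      have h1 : r.1 • K = K := h12 r.2
      have h2 : r.1 • y ∈ r.1 • K := Set.smul_mem_smul_set hy
      rw [h1] at h2
      exact h2
    obtain ⟨T, hTK, hTc, hT1, hT2⟩ := exists_transversal (R := R) (Y := X) K
      (fun r u v huv => S.adj r.1 u v huv) hRK (cp_conn v)
    have hmoves : ∀ y ∈ K, r1 • y ≠ y := by
      intro y hy he
      have h3 : stabilizer G y = stabilizer G x := (stab_cp S hv hy).trans (stab_cp S hv hx).symm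
      have h4 : r1 ∈ stabilizer G y := he
      rw [h3] at h4
      exact hr1x h4
    obtain ⟨⟨t0, ht0⟩⟩ := hTc.nonempty
    have horb : NN h ≤ (orbit R t0).ncard := orbit_big S.big R t0 hr1 (hmoves t0 (hTK ht0))
    have hNN : h ≤ NN h := by
      have : 1 ≤ 2 ^ h := Nat.one_le_two_pow
      unfold NN; omega
    -- choose `h` distinct translates and `h` distinct hubs
    obtain ⟨P, hP1, hP2⟩ := Set.exists_subset_card_eq (hNN.trans horb)
    obtain ⟨P', hP1', hP2'⟩ := Set.exists_subset_card_eq (hNN.trans hhub)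
    have eP : ∃ f : Fin h → V, Function.Injective f ∧ ∀ i, f i ∈ orbit R t0 := by
      have : Nat.card P = h := hP2
      let e := (Finite.equivFinOfCardEq this).symm
      exact ⟨fun i => (e i).1, fun i j hij => e.injective (Subtype.ext hij), fun i => hP1 (e i).2⟩
    have eP' : ∃ f : Fin h → V, Function.Injective f ∧ ∀ i, f i ∈ orbit (stabilizer G K) w := by
      have : Nat.card P' = h := hP2'
      let e := (Finite.equivFinOfCardEq this).symm
      exact ⟨fun i => (e i).1, fun i j hij => e.injective (Subtype.ext hij), fun i => hP1' (e i).2⟩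
    obtain ⟨f, hfinj, hf⟩ := eP
    obtain ⟨f', hfinj', hf'⟩ := eP'
    choose r hr using hf
    choose ν hν using hf'
    have hdisjT : ∀ i j, ∀ t ∈ T, ∀ t' ∈ T, r i • t = r j • t' → i = j := by
      intro i j t ht t' ht' he
      have h1 : ((r j)⁻¹ * r i) • t = t' := by rw [mul_smul, he, inv_smul_smul]
      have h2 := hT2 t ht t' ht' _ h1
      subst h2
      have h3 : stabilizer G t = stabilizer G t0 :=
        (stab_cp S hv (hTK ht)).trans (stab_cp S hv (hTK ht0)).symm
      have h4 : ((r j)⁻¹ * r i).1 ∈ stabilizer G t := h1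
      rw [h3] at h4
      have h5 : ((r j)⁻¹ * r i) • t0 = t0 := h4
      rw [mul_smul, inv_smul_eq_iff] at h5
      apply hfinj
      rw [← hr i, ← hr j]
      exact h5
    refine hasKMinor_of_biclique (fun i => (r i).1 • T) (fun j => {f' j}) ?_ ?_ ?_ ?_ ?_ ?_
    · intro i
      exact conn_smul S hTc _
    · intro j
      exact conn_singleton X _
    · intro i j hij
      rw [Set.disjoint_left]
      rintro _ ⟨t, ht, rfl⟩ ⟨t', ht', he⟩
      exact hij (hdisjT i j t ht t' ht' he.symm)
    · intro i j hij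
      rw [Set.disjoint_singleton]
      exact fun he => hij (hfinj' he)
    · intro i j
      rw [Set.disjoint_singleton_right]
      rintro ⟨t, ht, he⟩
      have h1 : (r i).1 • t ∈ K := hRK (r i) t (hTK ht)
      have h2 : f' j ∈ LL G (V := V) m := by
        rw [← he]
        exact cp_sub hv h1
      rw [← hν j] at h2
      exact hwL ((LL_smul (ν j).1).1 h2)
    · intro i j
      have h1 : (ν j).1 • x ∈ K := by
        have e1 : (ν j).1 • K = K := (ν j).2
        have e2 : (ν j).1 • x ∈ (ν j).1 • K := Set.smul_mem_smul_set hx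
        rwa [e1] at e2
      obtain ⟨r', t, ht, hrt⟩ := hT1 _ h1
      refine ⟨(r i).1 • t, Set.smul_mem_smul_set ht, f' j, rfl, ?_⟩
      have h2 : (r i).1 • t = (ν j).1 • ((r i * r'⁻¹ : R).1 • x) := by
        have e1 : t = (r'⁻¹ : R).1 • ((ν j).1 • x) := by
          rw [hrt]
          exact (inv_smul_smul r' t).symm
        have e2 : (r i).1 • t = (r i * r'⁻¹ : R).1 • (ν j).1 • x := by
          rw [e1, ← mul_smul, ← mul_smul, ← mul_smul]
          rfl
        rw [e2]
        exact comm_cp S hv (h12 (r i * r'⁻¹ : R).2) (ν j).2 hx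
      rw [h2, ← hν j]
      refine S.adj (ν j).1 _ _ ?_
      have h3 := S.adj (r i * r'⁻¹ : R).1 _ _ hxw
      have h4 : (r i * r'⁻¹ : R).1 • w = w := (r i * r'⁻¹ : R).2
      rwa [h4] at h3

/-- an element which fixes the neighbours of a component of the lowest level fixes the component -/
theorem fix_comp (S : Setup h G X) {v : V} (hv : v ∈ LL G (V := V) m)
    {g : G} (hg : ∀ w ∈ Nb X (LL G m) v, g • w = w) :
    g • cp X (LL G m) v = cp X (LL G m) v := by
  classical
  by_contra hne
  set K := cp X (LL G m) v with hK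
  have hgK : g • K = cp X (LL G m) (g • v) := cp_smul S g v
  have hdisj : ∀ y, y ∈ K → y ∉ g • K := by
    intro y hy hy'
    apply hne
    rw [hgK] at hy' ⊢
    exact cp_eq_of_mem ((LL_smul g).2 hv) hv hy' hy
  have hgKL : ∀ y ∈ g • K, y ∈ LL G (V := V) m := by
    intro y hy
    rw [hgK] at hy
    exact cp_sub ((LL_smul g).2 hv) hy
  have hKL : ∀ y ∈ K, y ∈ LL G (V := V) m := fun y hy => cp_sub hv hy
  let f : V → V := fun y => if y ∈ K then g • y else if y ∈ g • K then g⁻¹ • y else y
  have f1 : ∀ y ∈ K, f y = g • y := fun y hy => if_pos hy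
  have f2 : ∀ y ∈ g • K, f y = g⁻¹ • y := by
    intro y hy
    have : y ∉ K := fun hh => hdisj y hh hy
    simp only [f, if_neg this, if_pos hy]
  have f3 : ∀ y, y ∉ K → y ∉ g • K → f y = y := by
    intro y h1 h2
    simp only [f, if_neg h1, if_neg h2]
  have hff : ∀ y, f (f y) = y := by
    intro y
    by_cases h1 : y ∈ K
    · rw [f1 y h1, f2 _ (Set.smul_mem_smul_set h1), inv_smul_smul]
    · by_cases h2 : y ∈ g • K
      · rw [f2 y h2, f1 _ (Set.mem_smul_set_iff_inv_smul_mem.1 h2), smul_inv_smul]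
      · rw [f3 y h1 h2, f3 y h1 h2]
  have hout : ∀ u w, X.Adj u w → u ∈ K → w ∉ K → f w = g • w := by
    intro u w huw hu hw
    have hwN : w ∈ Nb X (LL G m) v := ⟨hw, u, hu, huw⟩
    have hwL := nb_notL hwN
    rw [f3 w hw (fun hh => hwL (hgKL w hh)), hg w hwN]
  have hout' : ∀ u w, X.Adj u w → u ∈ g • K → w ∉ g • K → f w = g⁻¹ • w := by
    intro u w huw hu hw
    have hu' := Set.mem_smul_set_iff_inv_smul_mem.1 hu
    have hw' : g⁻¹ • w ∉ K := fun hh => hw (Set.mem_smul_set_iff_inv_smul_mem.2 hh)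
    have hwN : g⁻¹ • w ∈ Nb X (LL G m) v := ⟨hw', g⁻¹ • u, hu', S.adj g⁻¹ _ _ huw⟩
    have hwL := nb_notL hwN
    have h1 := hg _ hwN
    rw [smul_inv_smul] at h1
    rw [← h1] at hwN hwL
    have hwK : w ∉ K := hwN.1
    rw [f3 w hwK hw]
    exact h1
  have c1 : ∀ y, ∃ g : G, f y = g • y := by
    intro y
    by_cases h1 : y ∈ K
    · exact ⟨g, f1 y h1⟩
    · by_cases h2 : y ∈ g • K
      · exact ⟨g⁻¹, f2 y h2⟩
      · exact ⟨1, by rw [f3 y h1 h2, one_smul]⟩
  have c2 : ∀ u w, X.Adj u w → ∃ g : G, f u = g • u ∧ f w = g • w := by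
    intro u w huw
    by_cases h1 : u ∈ K
    · refine ⟨g, f1 u h1, ?_⟩
      by_cases h2 : w ∈ K
      · exact f1 w h2
      · exact hout u w huw h1 h2
    · by_cases h2 : w ∈ K
      · exact ⟨g, hout w u huw.symm h2 h1, f1 w h2⟩
      · by_cases h3 : u ∈ g • K
        · refine ⟨g⁻¹, f2 u h3, ?_⟩
          by_cases h4 : w ∈ g • K
          · exact f2 w h4
          · exact hout' u w huw h3 h4
        · by_cases h4 : w ∈ g • K
          · exact ⟨g⁻¹, hout' w u huw.symm h4 h3, f2 w h4⟩
          · exact ⟨1, by rw [f3 u h1 h3, one_smul], by rw [f3 w h2 h4, one_smul]⟩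
  obtain ⟨s, hs⟩ := S.full f (fun a b hab => by rw [← hff a, ← hff b, hab]) c1 c2
  have h1 : s ^ 2 = 1 := by
    apply S.faithful
    intro y
    rw [pow_two, mul_smul, hs, hs, hff]
  have h2 : s ≠ 1 := by
    rintro rfl
    have h3 := hs v
    rw [one_smul, f1 v (mem_cp v)] at h3
    refine hdisj v (mem_cp v) ?_
    rw [h3]
    exact Set.smul_mem_smul_set (mem_cp v)
  have h3 : orderOf s = 2 := orderOf_eq_prime h1 h2
  have h4 := S.big 2 Nat.prime_two (h3 ▸ orderOf_dvd_natCard s)
  have h5 : 1 ≤ 2 ^ h := Nat.one_le_two_pow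
  unfold NN at h4
  omega

end Pool.Agent.W129.BC
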