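import Mathlib
import Pool.Agent.Helper999.HMBasic

/-!
Dense graphs have large complete minors (a weak form of a theorem of Mader), and transitivity of
the minor relation.
-/

set_option autoImplicit false

namespace Pool.Agent.W129.BC

open SimpleGraph Pool.Agent.Helper999.HM

/-- `Y` is a minor (subcontraction) of `X`: there are pairwise disjoint connected vertex sets of
`X`, one for each vertex of `Y`, which are joined by an edge whenever the vertices of `Y` are. -/
def IsMinor {W V : Type} (Y : SimpleGraph W) (X : SimpleGraph V) : Prop :=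
  ∃ B : W → Set V, (∀ w, (X.induce (B w)).Connected) ∧
    (∀ w w', w ≠ w' → Disjoint (B w) (B w')) ∧
    ∀ w w', Y.Adj w w' → ∃ a ∈ B w, ∃ b ∈ B w', X.Adj a b

theorem HasKMinor.of_minor {W V : Type} {Y : SimpleGraph W} {X : SimpleGraph V} {h : ℕ}
    (hY : HasKMinor Y h) (hm : IsMinor Y X) : HasKMinor X h := by
  obtain ⟨A, hA1, hA2, hA3⟩ := hY
  obtain ⟨B, hB1, hB2, hB3⟩ := hm
  refine ⟨fun i => ⋃ w ∈ A i, B w, ?_, ?_, ?_⟩
  · intro i
    obtain ⟨⟨w0, hw0⟩⟩ := (hA1 i).nonempty
    obtain ⟨⟨b0, hb0⟩⟩ := (hB1 w0).nonempty
    refine conn_of_base (b := b0) (Set.mem_biUnion hw0 hb0) ?_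
    intro a ha'
    obtain ⟨w, hw, ha⟩ := Set.mem_iUnion₂.1 ha'
    have hpath := step_of_conn (hA1 i) hw0 hw
    clear hw ha'
    induction hpath generalizing a with
    | refl => exact StepIn.mono (Set.subset_biUnion_of_mem hw0) (step_of_conn (hB1 w0) hb0 ha)
    | @tail u w _ hstep ih =>
      obtain ⟨x, hx, y, hy, hxy⟩ := hB3 _ _ hstep.1
      refine (ih x hx).trans (Relation.ReflTransGen.head ⟨hxy, ?_⟩ ?_)
      · exact Set.mem_biUnion hstep.2 hy
      · exact StepIn.mono (Set.subset_biUnion_of_mem hstep.2) (step_of_conn (hB1 w) hy ha)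
  · intro i j hij
    rw [Set.disjoint_left]
    intro a ha hb
    obtain ⟨w, hw, ha⟩ := Set.mem_iUnion₂.1 ha
    obtain ⟨w', hw', hb⟩ := Set.mem_iUnion₂.1 hb
    have hne : w ≠ w' := by
      rintro rfl
      exact Set.disjoint_left.1 (hA2 i j hij) hw hw'
    exact Set.disjoint_left.1 (hB2 w w' hne) ha hb
  · intro i j hij
    obtain ⟨w, hw, w', hw', hadj⟩ := hA3 i j hij
    obtain ⟨a, ha, b, hb, hab⟩ := hB3 w w' hadj
    exact ⟨a, Set.mem_biUnion hw ha, b, Set.mem_biUnion hw' hb, hab⟩

open scoped Classical in
/-- the number of ordered pairs of adjacent vertices -/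
noncomputable def dd {V : Type} [Fintype V] (Y : SimpleGraph V) : ℕ :=
  (Finset.univ.filter (fun p : V × V => Y.Adj p.1 p.2)).card

open scoped Classical in
theorem dd_ge {V : Type} [Fintype V] (Y : SimpleGraph V) (d : ℕ)
    (hd : ∀ v, d ≤ (Finset.univ.filter (fun u => Y.Adj v u)).card) : d * Fintype.card V ≤ dd Y := by
  have h1 : dd Y = ∑ v : V, (Finset.univ.filter (fun u => Y.Adj v u)).card := by
    rw [dd, ← Finset.univ_product_univ, Finset.card_filter, Finset.sum_product]
    refine Finset.sum_congr rfl fun v _ => ?_
    rw [Finset.card_filter]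
  rw [h1]
  calc d * Fintype.card V = ∑ _v : V, d := by simp [mul_comm]
    _ ≤ _ := Finset.sum_le_sum fun v _ => hd v

/-- contract the edge `uv` to `u`; the new graph lives on the vertices different from `v` -/
def contr {V : Type} (Y : SimpleGraph V) (u v : V) : SimpleGraph {x : V // x ≠ v} where
  Adj a b := a ≠ b ∧ (Y.Adj a b ∨ (a.1 = u ∧ Y.Adj v b) ∨ (b.1 = u ∧ Y.Adj v a))
  symm := ⟨by
    rintro a b ⟨h1, h2⟩
    refine ⟨h1.symm, ?_⟩
    rcases h2 with h | h | h
    · exact Or.inl h.symm
    · exact Or.inr (Or.inr h)
    · exact Or.inr (Or.inl h)⟩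
  loopless := ⟨fun a h => h.1 rfl⟩

theorem contr_minor {V : Type} (Y : SimpleGraph V) {u v : V} (huv : Y.Adj u v) :
    IsMinor (contr Y u v) Y := by
  classical
  refine ⟨fun x => if x.1 = u then {u, v} else {x.1}, ?_, ?_, ?_⟩
  · intro x
    by_cases hx : x.1 = u
    · have e : (if x.1 = u then ({u, v} : Set V) else {x.1}) = {u} ∪ {v} := by
        rw [if_pos hx]; rfl
      dsimp only
      rw [e]
      exact conn_union (conn_singleton Y u) (conn_singleton Y v) rfl rfl huv
    · have e : (if x.1 = u then ({u, v} : Set V) else {x.1}) = {x.1} := if_neg hx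
      dsimp only
      rw [e]
      exact conn_singleton Y _
  · intro x y hxy
    have hxy' : x.1 ≠ y.1 := fun h => hxy (Subtype.ext h)
    have hxv := x.2
    have hyv := y.2
    rw [Set.disjoint_left]
    intro a ha hb
    dsimp only at ha hb
    split_ifs at ha hb with h1 h2 h2
    · exact hxy' (h1.trans h2.symm)
    · rw [Set.mem_singleton_iff] at hb
      rcases ha with rfl | ha
      · exact h2 hb.symm
      · rw [Set.mem_singleton_iff] at ha
        exact hyv (hb.symm.trans ha)
    · rw [Set.mem_singleton_iff] at ha
      rcases hb with rfl | hb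
      · exact h1 ha.symm
      · rw [Set.mem_singleton_iff] at hb
        exact hxv (ha.symm.trans hb)
    · rw [Set.mem_singleton_iff] at ha hb
      exact hxy' (ha.symm.trans hb)
  · rintro x y ⟨hne, h⟩
    have mem_self : ∀ z : {x : V // x ≠ v}, z.1 ∈ (if z.1 = u then ({u, v} : Set V) else {z.1}) := by
      intro z
      split_ifs with hz
      · exact Or.inl hz
      · exact rfl
    rcases h with h | ⟨h1, h2⟩ | ⟨h1, h2⟩
    · exact ⟨x.1, mem_self x, y.1, mem_self y, h⟩
    · refine ⟨v, ?_, y.1, mem_self y, h2⟩
      dsimp only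
      rw [if_pos h1]
      exact Or.inr rfl
    · refine ⟨x.1, mem_self x, v, ?_, h2.symm⟩
      dsimp only
      rw [if_pos h1]
      exact Or.inr rfl

open scoped Classical in
theorem contr_dd {V : Type} [Fintype V] (Y : SimpleGraph V) {u v : V} (huv : Y.Adj u v) :
    dd Y ≤ dd (contr Y u v) + 2 + 2 * (Finset.univ.filter (fun b => Y.Adj u b ∧ Y.Adj v b)).card := by
  set C := Finset.univ.filter (fun b => Y.Adj u b ∧ Y.Adj v b) with hC
  have huv' : u ≠ v := huv.ne
  let bad : Finset (V × V) := {(u, v), (v, u)} ∪ (C.image (fun b => (v, b)) ∪ C.image (fun b => (b, v)))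
  have hbad : bad.card ≤ 2 + 2 * C.card := by
    refine (Finset.card_union_le _ _).trans ?_
    refine add_le_add (Finset.card_insert_le _ _) ?_
    refine (Finset.card_union_le _ _).trans ?_
    have h1 := Finset.card_image_le (s := C) (f := fun b => (v, b))
    have h2 := Finset.card_image_le (s := C) (f := fun b => (b, v))
    omega
  let f : V → {x : V // x ≠ v} := fun x => if h : x = v then ⟨u, huv'⟩ else ⟨x, h⟩
  have hf1 : ∀ x, x ≠ v → (f x).1 = x := by
    intro x hx
    simp only [f, dif_neg hx]
  have hf2 : (f v).1 = u := by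
    simp only [f, dif_pos]
  set P := Finset.univ.filter (fun p : V × V => Y.Adj p.1 p.2) with hP
  have key : (P \ bad).card ≤ dd (contr Y u v) := by
    rw [dd]
    refine Finset.card_le_card_of_injOn (fun p => (f p.1, f p.2)) ?_ ?_
    · rintro ⟨a, b⟩ hab
      simp only [Finset.coe_sdiff, Set.mem_sdiff, Finset.mem_coe, hP, Finset.mem_filter,
        Finset.mem_univ, true_and] at hab
      obtain ⟨hadj, hnb⟩ := hab
      simp only [Finset.coe_filter, Finset.mem_univ, true_and, Set.mem_ofPred_eq]
      have hne1 : (a, b) ≠ (u, v) := by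
        intro h; apply hnb; simp only [bad, Finset.mem_union]; left; simp [h]
      have hne2 : (a, b) ≠ (v, u) := by
        intro h; apply hnb; simp only [bad, Finset.mem_union]; left; simp [h]
      by_cases hav : a = v
      · subst hav
        have hbv : b ≠ a := hadj.ne'
        have hbu : b ≠ u := by rintro rfl; exact hne2 rfl
        refine ⟨?_, Or.inr (Or.inl ⟨hf2, ?_⟩)⟩
        · intro h
          have := congrArg Subtype.val h
          rw [hf2, hf1 b hbv] at this
          exact hbu this.symm
        · rw [hf1 b hbv]; exact hadj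
      · by_cases hbv : b = v
        · subst hbv
          have hau : a ≠ u := by rintro rfl; exact hne1 rfl
          refine ⟨?_, Or.inr (Or.inr ⟨hf2, ?_⟩)⟩
          · intro h
            have := congrArg Subtype.val h
            rw [hf2, hf1 a hav] at this
            exact hau this
          · rw [hf1 a hav]; exact hadj.symm
        · refine ⟨?_, Or.inl ?_⟩
          · intro h
            have := congrArg Subtype.val h
            rw [hf1 a hav, hf1 b hbv] at this
            exact hadj.ne this
          · rw [hf1 a hav, hf1 b hbv]; exact hadj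
    · rintro ⟨a, b⟩ hab ⟨a', b'⟩ hab' heq
      simp only [Finset.coe_sdiff, Set.mem_sdiff, Finset.mem_coe, hP, Finset.mem_filter,
        Finset.mem_univ, true_and] at hab hab'
      obtain ⟨hadj, hnb⟩ := hab
      obtain ⟨hadj', hnb'⟩ := hab'
      simp only [Prod.mk.injEq] at heq
      obtain ⟨h1, h2⟩ := heq
      have e1 := congrArg Subtype.val h1
      have e2 := congrArg Subtype.val h2
      have nb1 : ∀ x y : V, (x, y) ∉ bad → x = v → ¬ Y.Adj u y ∨ ¬ Y.Adj v y := by
        intro x y h hx
        by_contra hcon
        push Not at hcon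
        apply h
        subst hx
        simp only [bad, Finset.mem_union]
        right; left
        exact Finset.mem_image_of_mem _ (by simp [hC, hcon.1, hcon.2])
      have nb2 : ∀ x y : V, (x, y) ∉ bad → y = v → ¬ Y.Adj u x ∨ ¬ Y.Adj v x := by
        intro x y h hx
        by_contra hcon
        push Not at hcon
        apply h
        subst hx
        simp only [bad, Finset.mem_union]
        right; right
        exact Finset.mem_image_of_mem _ (by simp [hC, hcon.1, hcon.2])
      by_cases hav : a = v
      · have hbv : b ≠ v := by rintro rfl; exact hadj.ne hav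
        rw [hav, hf2] at e1
        rw [hf1 b hbv] at e2
        by_cases hav' : a' = v
        · have hbv' : b' ≠ v := by rintro rfl; exact hadj'.ne hav'
          rw [hf1 b' hbv'] at e2
          rw [hav, hav', e2]
        · rw [hf1 a' hav'] at e1
          exfalso
          by_cases hbv' : b' = v
          · rw [hbv', hf2] at e2
            rw [hav, e2] at hadj
            apply hnb
            rw [hav, e2]
            simp [bad]
          · rw [hf1 b' hbv'] at e2
            rcases nb1 a b hnb hav with h | h
            · apply h; rw [e2, e1]; exact hadj'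
            · apply h; rw [← hav]; exact hadj
      · rw [hf1 a hav] at e1
        by_cases hbv : b = v
        · rw [hbv, hf2] at e2
          by_cases hbv' : b' = v
          · have hav' : a' ≠ v := by rintro rfl; exact hadj'.ne hbv'.symm
            rw [hf1 a' hav'] at e1
            rw [hbv, hbv', e1]
          · rw [hf1 b' hbv'] at e2
            exfalso
            by_cases hav' : a' = v
            · rw [hav', hf2] at e1
              apply hnb
              rw [hbv, e1]
              simp [bad]
            · rw [hf1 a' hav'] at e1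
              rcases nb2 a b hnb hbv with h | h
              · apply h; rw [e2, e1]; exact hadj'.symm
              · apply h; rw [← hbv]; exact hadj.symm
        · rw [hf1 b hbv] at e2
          by_cases hav' : a' = v
          · exfalso
            rw [hav', hf2] at e1
            have hbv' : b' ≠ v := by rintro rfl; exact hadj'.ne hav'
            rw [hf1 b' hbv'] at e2
            rcases nb1 a' b' hnb' hav' with h | h
            · apply h; rw [← e2, ← e1]; exact hadj
            · apply h; rw [← hav']; exact hadj'
          · rw [hf1 a' hav'] at e1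
            by_cases hbv' : b' = v
            · exfalso
              rw [hbv', hf2] at e2
              rcases nb2 a' b' hnb' hbv' with h | h
              · apply h; rw [← e2, ← e1]; exact hadj.symm
              · apply h; rw [← hbv']; exact hadj'.symm
            · rw [hf1 b' hbv'] at e2
              rw [e1, e2]
  have h3 : P.card ≤ (P \ bad).card + bad.card := by
    have := Finset.le_card_sdiff bad P
    omega
  have h4 : dd Y = P.card := rfl
  omega

/-- a graph with `n ≥ 1` vertices and at least `2 ^ h * n` ordered pairs of adjacent vertices has a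
`K_h` minor -/
theorem mader_aux (h : ℕ) : ∀ (n : ℕ) (V : Type) [Fintype V] (Y : SimpleGraph V),
    Fintype.card V = n → 1 ≤ n → 2 ^ h * n ≤ dd Y → HasKMinor Y h := by
  classical
  induction h with
  | zero =>
    intro n V _ Y _ _ _
    exact ⟨fun i => i.elim0, fun i => i.elim0, fun i => i.elim0, fun i => i.elim0⟩
  | succ h ih =>
    intro n
    induction n with
    | zero => intro V _ Y _ h1; omega
    | succ n ihn =>
      intro V _ Y hV _ hdd
      have hpos : 0 < dd Y := lt_of_lt_of_le (by positivity) hdd
      rw [dd, Finset.card_pos] at hpos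
      obtain ⟨⟨u, v⟩, huv⟩ := hpos
      simp only [Finset.mem_filter, Finset.mem_univ, true_and] at huv
      by_cases hall : ∀ u v, Y.Adj u v →
          2 ^ h ≤ (Finset.univ.filter (fun b => Y.Adj u b ∧ Y.Adj v b)).card
      · -- look at the neighbourhood of `u`
        let N : Set V := {x | Y.Adj u x}
        have hN : HasKMinor (Y.induce N) h := by
          have : Nonempty N := ⟨⟨v, huv⟩⟩
          refine ih (Fintype.card N) N (Y.induce N) rfl Fintype.card_pos ?_
          refine dd_ge (Y.induce N) (2 ^ h) ?_
          rintro ⟨x, hx⟩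
          refine (hall u x hx).trans ?_
          refine le_of_eq_of_le ?_ (le_refl _)
          symm
          refine Finset.card_bij (fun b _ => b.1) ?_ ?_ ?_
          · rintro ⟨b, hb⟩ hb'
            simp only [Finset.mem_filter, Finset.mem_univ, true_and] at hb' ⊢
            exact ⟨hb, by simpa using hb'⟩
          · rintro ⟨b, hb⟩ _ ⟨b', hb'⟩ _ hbb
            exact Subtype.ext hbb
          · intro b hb
            simp only [Finset.mem_filter, Finset.mem_univ, true_and] at hb
            exact ⟨⟨b, hb.1⟩, by simpa using hb.2, rfl⟩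
        obtain ⟨B, hB1, hB2, hB3⟩ := hN
        refine ⟨Fin.cases {u} (fun i => Subtype.val '' (B i)), ?_, ?_, ?_⟩
        · intro i
          refine Fin.cases (conn_singleton Y u) (fun i => ?_) i
          simp only [Fin.cases_succ]
          obtain ⟨⟨b0, hb0⟩⟩ := (hB1 i).nonempty
          refine conn_of_base (b := b0.1) ⟨b0, hb0, rfl⟩ ?_
          rintro _ ⟨a, ha, rfl⟩
          have := step_of_conn (hB1 i) hb0 ha
          refine Relation.ReflTransGen.lift Subtype.val ?_ _ _ this
          rintro x y ⟨h1, h2⟩
          exact ⟨by simpa using h1, ⟨y, h2, rfl⟩⟩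
        · intro i j
          refine Fin.cases ?_ (fun i => ?_) i
          · refine Fin.cases (fun h => (h rfl).elim) (fun j _ => ?_) j
            simp only [Fin.cases_succ, Fin.cases_zero]
            rw [Set.disjoint_singleton_left]
            rintro ⟨⟨x, hx⟩, _, hxu⟩
            simp only at hxu
            subst hxu
            exact Y.loopless.irrefl _ hx
          · refine Fin.cases (fun _ => ?_) (fun j hij => ?_) j
            · simp only [Fin.cases_succ, Fin.cases_zero]
              rw [Set.disjoint_singleton_right]
              rintro ⟨⟨x, hx⟩, _, hxu⟩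
              simp only at hxu
              subst hxu
              exact Y.loopless.irrefl _ hx
            · simp only [Fin.cases_succ]
              have := hB2 i j (fun h => hij (by rw [h]))
              exact (Set.disjoint_image_iff Subtype.val_injective).2 this
        · intro i j
          refine Fin.cases ?_ (fun i => ?_) i
          · refine Fin.cases (fun h => (h rfl).elim) (fun j _ => ?_) j
            simp only [Fin.cases_succ, Fin.cases_zero]
            obtain ⟨⟨b0, hb0⟩⟩ := (hB1 j).nonempty
            exact ⟨u, rfl, b0.1, ⟨b0, hb0, rfl⟩, b0.2⟩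
          · refine Fin.cases (fun _ => ?_) (fun j hij => ?_) j
            · simp only [Fin.cases_succ, Fin.cases_zero]
              obtain ⟨⟨b0, hb0⟩⟩ := (hB1 i).nonempty
              exact ⟨b0.1, ⟨b0, hb0, rfl⟩, u, rfl, b0.2.symm⟩
            · simp only [Fin.cases_succ]
              obtain ⟨a, ha, b, hb, hab⟩ := hB3 i j (fun h => hij (by rw [h]))
              exact ⟨a.1, ⟨a, ha, rfl⟩, b.1, ⟨b, hb, rfl⟩, by simpa using hab⟩
      · push Not at hall
        obtain ⟨u, v, huv, hlt⟩ := hall
        have h1 := contr_dd Y huv
        have h2 : Fintype.card {x : V // x ≠ v} = n := by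
          rw [Fintype.card_subtype_compl, Fintype.card_subtype_eq, hV]; omega
        have h3 : 1 ≤ n := by
          rw [← h2]
          have : Nonempty {x : V // x ≠ v} := ⟨⟨u, huv.ne⟩⟩
          exact Fintype.card_pos
        refine HasKMinor.of_minor (ihn {x : V // x ≠ v} (contr Y u v) h2 h3 ?_) (contr_minor Y huv)
        have h4 : 2 ^ (h + 1) * (n + 1) = 2 ^ (h + 1) * n + 2 * 2 ^ h := by ring
        omega

/-- minimum degree at least `2 ^ h` forces a `K_h` minor -/
theorem mader {V : Type} [Finite V] [Nonempty V] (Y : SimpleGraph V) (h : ℕ)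
    (hd : ∀ v, 2 ^ h ≤ {u | Y.Adj v u}.ncard) : HasKMinor Y h := by
  classical
  have := Fintype.ofFinite V
  refine mader_aux h _ V Y rfl Fintype.card_pos (dd_ge Y _ fun v => (hd v).trans (le_of_eq ?_))
  rw [Set.ncard_eq_toFinset_card']
  congr 1
  ext u
  simp

/-- families of disjoint connected sets, each adjacent to many others -/
theorem dense_family {V : Type} [Finite V] {X : SimpleGraph V} {h : ℕ} (F : Set (Set V))
    (hne : F.Nonempty) (hconn : ∀ A ∈ F, (X.induce A).Connected)
    (hdisj : ∀ A ∈ F, ∀ B ∈ F, A ≠ B → Disjoint A B)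
    (hdeg : ∀ A ∈ F, 2 ^ h ≤ {B ∈ F | B ≠ A ∧ ∃ a ∈ A, ∃ b ∈ B, X.Adj a b}.ncard) :
    HasKMinor X h := by
  let Y : SimpleGraph F :=
    { Adj := fun A B => B ≠ A ∧ ∃ a ∈ A.1, ∃ b ∈ B.1, X.Adj a b
      symm := ⟨by
        rintro A B ⟨h1, a, ha, b, hb, hab⟩
        exact ⟨h1.symm, b, hb, a, ha, hab.symm⟩⟩
      loopless := ⟨fun A h => h.1 rfl⟩ }
  have : Nonempty F := hne.to_subtype
  have h1 : HasKMinor Y h := by
    refine mader Y h ?_
    rintro ⟨A, hA⟩
    refine (hdeg A hA).trans (le_of_eq ?_)
    rw [← Set.ncard_image_of_injective _ (Subtype.val_injective (p := fun A => A ∈ F))]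
    congr 1
    ext B
    simp only [Set.mem_ofPred_eq, Set.mem_image, Subtype.exists, exists_and_right, exists_eq_right]
    constructor
    · rintro ⟨hB, h1, h2⟩
      exact ⟨hB, fun h => h1 (congrArg Subtype.val h), h2⟩
    · rintro ⟨hB, h1, h2⟩
      exact ⟨hB, fun h => h1 (Subtype.ext h), h2⟩
  refine HasKMinor.of_minor h1 ⟨fun A => A.1, fun A => hconn _ A.2, fun A B hAB => ?_, ?_⟩
  · exact hdisj _ A.2 _ B.2 fun h => hAB (Subtype.ext h)
  · rintro A B ⟨_, h⟩
    exact h

end Pool.Agent.W129.BC
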