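import Pool.Agent.W129.BC.Level

/-!
Contracting the components of the lowest level.
-/

set_option autoImplicit false
set_option linter.unusedSectionVars false

namespace Pool.Agent.W129.BC

open SimpleGraph MulAction Pool.Agent.Helper999.HM
open scoped Pointwise

variable {h : ℕ} {V G : Type} [Finite V] [Group G] [Finite G] [MulAction G V] {X : SimpleGraph V}
variable {m : ℕ}

/-- `u` together with the translates `g K` such that `g e = u` -/
def BB (G : Type) {V : Type} [Group G] [MulAction G V] (X : SimpleGraph V) (m : ℕ) (v e u : V) :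
    Set V :=
  {u} ∪ {y | e ∈ Nb X (LL G m) v ∧ ∃ g : G, g • e = u ∧ g⁻¹ • y ∈ cp X (LL G m) v}

theorem BB_smul (v e u : V) (g : G) : g • BB G X m v e u = BB G X m v e (g • u) := by
  have key : ∀ (g : G) (u y : V), y ∈ BB G X m v e u → g • y ∈ BB G X m v e (g • u) := by
    rintro g u y (rfl | ⟨he, g', rfl, hy⟩)
    · exact Or.inl rfl
    · refine Or.inr ⟨he, g * g', mul_smul _ _ _, ?_⟩
      rw [mul_inv_rev, mul_smul, inv_smul_smul]
      exact hy
  ext y
  rw [Set.mem_smul_set_iff_inv_smul_mem]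
  constructor
  · intro hy
    have := key g _ _ hy
    rwa [smul_inv_smul] at this
  · intro hy
    have := key g⁻¹ _ _ hy
    rwa [inv_smul_smul] at this

theorem stab_BB (v e u : V) (hu : ∀ g : G, g • u ∉ cp X (LL G m) v) :
    stabilizer G (BB G X m v e u) = stabilizer G u := by
  ext g
  rw [mem_stabilizer_iff, mem_stabilizer_iff, BB_smul]
  constructor
  · intro he
    have h1 : g • u ∈ BB G X m v e (g • u) := Or.inl rfl
    rw [he] at h1
    rcases h1 with h1 | ⟨_, g', _, h1⟩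
    · exact h1
    · rw [smul_smul] at h1
      exact (hu _ h1).elim
  · intro he
    rw [he]

theorem BB_disj (S : Setup h G X) (hm : ∀ v : V, m ≤ Nat.card (stabilizer G v)) {v : V}
    (hv : v ∈ LL G (V := V) m) (e : V) {u u' : V} (hu : ∀ g : G, g • u ∉ cp X (LL G m) v)
    (hu' : ∀ g : G, g • u' ∉ cp X (LL G m) v) (hne : u ≠ u') :
    Disjoint (BB G X m v e u) (BB G X m v e u') := by
  rw [Set.disjoint_left]
  rintro y (hy | ⟨he, g, hg, hy⟩) (hy' | ⟨he', g', hg', hy'⟩)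
  · rw [Set.mem_singleton_iff] at hy hy'
    exact hne (hy.symm.trans hy')
  · rw [Set.mem_singleton_iff] at hy
    rw [hy] at hy'
    exact hu _ hy'
  · rw [Set.mem_singleton_iff] at hy'
    rw [hy'] at hy
    exact hu' _ hy
  · apply hne
    have h1 : (g'⁻¹ * g) • cp X (LL G m) v = cp X (LL G m) v := by
      rw [cp_smul S]
      refine cp_eq_of_mem (x := g'⁻¹ • y) ((LL_smul _).2 hv) hv ?_ hy'
      have h2 : (g'⁻¹ * g) • (g⁻¹ • y) ∈ (g'⁻¹ * g) • cp X (LL G m) v :=
        Set.smul_mem_smul_set hy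
      rw [cp_smul S, smul_smul] at h2
      simpa using h2
    have h2 : (g'⁻¹ * g) ∈ stabilizer G e := fix_nb S hm hv he h1
    have h3 : (g'⁻¹ * g) • e = e := h2
    rw [mul_smul, inv_smul_eq_iff] at h3
    rw [← hg, ← hg', h3]

theorem BB_conn (S : Setup h G X) (v e u : V) : (X.induce (BB G X m v e u)).Connected := by
  refine conn_of_base (b := u) (Or.inl rfl) ?_
  rintro y (hy | ⟨he, g, hg, hy⟩)
  · rw [Set.mem_singleton_iff] at hy
    rw [hy]
  · have he0 := he
    obtain ⟨_, x, hx, hxe⟩ := he0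
    have h1 : X.Adj u (g • x) := by
      rw [← hg]
      exact (S.adj g _ _ hxe).symm
    have h2 : g • cp X (LL G m) v ⊆ BB G X m v e u := by
      rintro _ ⟨z, hz, rfl⟩
      refine Or.inr ⟨he, g, hg, ?_⟩
      simpa using hz
    have h3 : g • x ∈ g • cp X (LL G m) v := Set.smul_mem_smul_set hx
    have h4 : y ∈ g • cp X (LL G m) v := Set.mem_smul_set_iff_inv_smul_mem.2 hy
    exact Relation.ReflTransGen.head ⟨h1, h2 h3⟩
      (StepIn.mono h2 (step_of_conn (conn_smul S (cp_conn v) g) h3 h4))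

theorem notL_notKK {v u : V} (hv : v ∈ LL G (V := V) m) (hu : u ∉ LL G (V := V) m) (g : G) :
    g • u ∉ cp X (LL G m) v := fun hh => hu ((LL_smul g).1 (cp_sub hv hh))

/-- stabilizers of the neighbours of a component of the lowest level are comparable -/
theorem nb_comp (S : Setup h G X) (hm : ∀ v : V, m ≤ Nat.card (stabilizer G v)) {v : V}
    (hv : v ∈ LL G (V := V) m) {w w' : V} (hw : w ∈ Nb X (LL G m) v) (hw' : w' ∈ Nb X (LL G m) v) :
    stabilizer G w ≤ stabilizer G w' ∨ stabilizer G w' ≤ stabilizer G w := by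
  have hwL := nb_notL hw
  have hwL' := nb_notL hw'
  have h1 := two_orbits S (A := BB G X m v w w) (B := BB G X m v w w') (BB_conn S v w w)
    (BB_conn S v w w') ?_ ?_
  · rwa [stab_BB v w w (notL_notKK hv hwL), stab_BB v w w' (notL_notKK hv hwL')] at h1
  · have hs : ∀ C ∈ orbit G (BB G X m v w w) ∪ orbit G (BB G X m v w w'),
        ∃ u, u ∉ LL G (V := V) m ∧ C = BB G X m v w u := by
      rintro _ (⟨g, rfl⟩ | ⟨g, rfl⟩)
      · exact ⟨g • w, fun hh => hwL ((LL_smul g).1 hh), BB_smul v w w g⟩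
      · exact ⟨g • w', fun hh => hwL' ((LL_smul g).1 hh), BB_smul v w w' g⟩
    intro C hC D hD hne
    obtain ⟨u, hu, rfl⟩ := hs C hC
    obtain ⟨u', hu', rfl⟩ := hs D hD
    refine BB_disj S hm hv w (notL_notKK hv hu) (notL_notKK hv hu') ?_
    rintro rfl
    exact hne rfl
  · obtain ⟨_, x, hx, hxw⟩ := hw'
    refine ⟨x, Or.inr ⟨hw, 1, one_smul _ _, by simpa using hx⟩, w', Or.inl rfl, hxw⟩

theorem exists_least (S : Setup h G X) (hm : ∀ v : V, m ≤ Nat.card (stabilizer G v)) {v : V}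
    (hv : v ∈ LL G (V := V) m) :
    ∃ e : V, ∀ w ∈ Nb X (LL G m) v, e ∈ Nb X (LL G m) v ∧ stabilizer G e ≤ stabilizer G w := by
  by_cases hne : (Nb X (LL G m) v).Nonempty
  · obtain ⟨e, he, hmin⟩ := Set.exists_min_image (Nb X (LL G m) v)
      (fun w => Nat.card (stabilizer G w)) (Set.toFinite _) hne
    refine ⟨e, fun w hw => ⟨he, ?_⟩⟩
    rcases nb_comp S hm hv he hw with h1 | h1
    · exact h1
    · exact (Subgroup.eq_of_le_of_card_ge h1 (hmin w hw)).ge
  · exact ⟨v, fun w hw => (hne ⟨w, hw⟩).elim⟩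

/-- the vertices outside the translates of the component of `v` -/
def Vs (G : Type) {V : Type} [Group G] [MulAction G V] (X : SimpleGraph V) (m : ℕ) (v : V) :
    SubMulAction G V where
  carrier := {y | ∀ g : G, g • y ∉ cp X (LL G m) v}
  smul_mem' := by
    intro c x hx g
    rw [smul_smul]
    exact hx (g * c)

/-- the contracted graph -/
def XR (G : Type) {V : Type} [Group G] [MulAction G V] (X : SimpleGraph V) (m : ℕ) (v e : V) :
    SimpleGraph (Vs G X m v) where
  Adj a b := a ≠ b ∧ (X.Adj a b ∨ (∃ g : G, g • e = a.1 ∧ g⁻¹ • b.1 ∈ Nb X (LL G m) v) ∨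
    (∃ g : G, g • e = b.1 ∧ g⁻¹ • a.1 ∈ Nb X (LL G m) v))
  symm := ⟨by
    rintro a b ⟨h1, h2⟩
    refine ⟨h1.symm, ?_⟩
    rcases h2 with h | h | h
    · exact Or.inl h.symm
    · exact Or.inr (Or.inr h)
    · exact Or.inr (Or.inl h)⟩
  loopless := ⟨fun a h => h.1 rfl⟩

theorem XR_minor (S : Setup h G X) (hm : ∀ v : V, m ≤ Nat.card (stabilizer G v)) {v : V}
    (hv : v ∈ LL G (V := V) m) {e : V}
    (he : ∀ w ∈ Nb X (LL G m) v, e ∈ Nb X (LL G m) v ∧ stabilizer G e ≤ stabilizer G w) :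
    IsMinor (XR G X m v e) X := by
  refine ⟨fun a => BB G X m v e a.1, fun a => BB_conn S v e _, ?_, ?_⟩
  · intro a b hab
    exact BB_disj S hm hv e a.2 b.2 fun hh => hab (Subtype.ext hh)
  · have key : ∀ a b : Vs G X m v, (∃ g : G, g • e = a.1 ∧ g⁻¹ • b.1 ∈ Nb X (LL G m) v) →
        ∃ x ∈ BB G X m v e a.1, ∃ y ∈ BB G X m v e b.1, X.Adj x y := by
      rintro a b ⟨g, hg, hb⟩
      have heN := (he _ hb).1
      obtain ⟨_, x, hx, hxb⟩ := hb
      refine ⟨g • x, Or.inr ⟨heN, g, hg, by simpa using hx⟩, b.1, Or.inl rfl, ?_⟩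
      have := S.adj g _ _ hxb
      rwa [smul_inv_smul] at this
    rintro a b ⟨_, h1 | h1 | h1⟩
    · exact ⟨a.1, Or.inl rfl, b.1, Or.inl rfl, h1⟩
    · exact key a b h1
    · obtain ⟨x, hx, y, hy, hxy⟩ := key b a h1
      exact ⟨y, hy, x, hx, hxy.symm⟩

theorem XR_adj (S : Setup h G X) {v e : V} (g : G) (a b : Vs G X m v)
    (hab : (XR G X m v e).Adj a b) : (XR G X m v e).Adj (g • a) (g • b) := by
  obtain ⟨h1, h2⟩ := hab
  refine ⟨fun hh => h1 (MulAction.injective g hh), ?_⟩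
  have key : ∀ a b : Vs G X m v, (∃ g : G, g • e = a.1 ∧ g⁻¹ • b.1 ∈ Nb X (LL G m) v) →
      ∃ g' : G, g' • e = (g • a).1 ∧ g'⁻¹ • (g • b).1 ∈ Nb X (LL G m) v := by
    rintro a b ⟨g', hg', hb⟩
    refine ⟨g * g', ?_, ?_⟩
    · rw [mul_smul, hg']; rfl
    · have : (g * g')⁻¹ • (g • b).1 = g'⁻¹ • b.1 := by
        rw [SubMulAction.val_smul, mul_inv_rev, mul_smul, inv_smul_smul]
      rw [this]
      exact hb
  rcases h2 with h2 | h2 | h2
  · exact Or.inl (S.adj g _ _ h2)
  · exact Or.inr (Or.inl (key a b h2))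
  · exact Or.inr (Or.inr (key b a h2))

theorem mem_Vs_iff (S : Setup h G X) {v y : V} (hv : v ∈ LL G (V := V) m) :
    y ∉ Vs G X m v ↔ cp X (LL G m) y ∈ orbit G (cp X (LL G m) v) := by
  constructor
  · intro hy
    have : ∃ g : G, g • y ∈ cp X (LL G m) v := by
      by_contra hcon
      push Not at hcon
      exact hy hcon
    obtain ⟨g, hg⟩ := this
    refine ⟨g⁻¹, ?_⟩
    change g⁻¹ • cp X (LL G m) v = cp X (LL G m) y
    rw [← cp_eq hv hg, ← cp_smul S, inv_smul_smul]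
  · rintro ⟨g, hg⟩ hy
    change g • cp X (LL G m) v = cp X (LL G m) y at hg
    apply hy g⁻¹
    rw [← Set.mem_smul_set_iff_inv_smul_mem, hg]
    exact mem_cp y

/-- a vertex outside `Vs` is on the lowest level -/
theorem LL_of_notVs {v y : V} (hv : v ∈ LL G (V := V) m) (hy : y ∉ Vs G X m v) :
    y ∈ LL G (V := V) m := by
  have : ∃ g : G, g • y ∈ cp X (LL G m) v := by
    by_contra hcon
    push Not at hcon
    exact hy hcon
  obtain ⟨g, hg⟩ := this
  exact (LL_smul g).1 (cp_sub hv hg)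

theorem notVs_smul {v y : V} (g : G) : g • y ∈ Vs G X m v ↔ y ∈ Vs G X m v := by
  constructor
  · intro hh
    have := (Vs G X m v).smul_mem g⁻¹ hh
    rwa [inv_smul_smul] at this
  · exact fun hh => (Vs G X m v).smul_mem g hh

/-- neighbours of components outside `Vs` are in `Vs` -/
theorem nb_mem_Vs {v y w : V} (hv : v ∈ LL G (V := V) m) (hw : w ∈ Nb X (LL G m) y) :
    w ∈ Vs G X m v := by
  by_contra hcon
  exact nb_notL hw (LL_of_notVs hv hcon)

/-- an edge with exactly one end in `Vs` -/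
theorem edge_nb {v u w : V} (hv : v ∈ LL G (V := V) m) (S : Setup h G X) (huw : X.Adj u w)
    (hu : u ∉ Vs G X m v) (hw : w ∈ Vs G X m v) : w ∈ Nb X (LL G m) u := by
  refine ⟨?_, u, mem_cp u, huw⟩
  intro hh
  have huL := LL_of_notVs hv hu
  have h1 := (mem_Vs_iff S hv).1 hu
  rw [← cp_eq huL hh] at h1
  exact (mem_Vs_iff S hv).2 h1 hw

/-- an edge outside `Vs` lies in one component -/
theorem edge_cp {v u w : V} (hv : v ∈ LL G (V := V) m) (huw : X.Adj u w)
    (hu : u ∉ Vs G X m v) (hw : w ∉ Vs G X m v) : cp X (LL G m) w = cp X (LL G m) u :=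
  cp_eq (LL_of_notVs hv hu) (cp_closed (mem_cp u) huw (LL_of_notVs hv hw))

/-- every local automorphism of the contracted graph comes from `G` -/
theorem full_restrict (S : Setup h G X) {v : V}
    (hv : v ∈ LL G (V := V) m) {e : V}
    (he : ∀ w ∈ Nb X (LL G m) v, e ∈ Nb X (LL G m) v ∧ stabilizer G e ≤ stabilizer G w)
    (f' : Vs G X m v → Vs G X m v) (hinj : Function.Injective f')
    (hf1 : ∀ a, ∃ g : G, f' a = g • a)
    (hf2 : ∀ a b, (XR G X m v e).Adj a b → ∃ g : G, f' a = g • a ∧ f' b = g • b) :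
    ∃ g : G, ∀ a : Vs G X m v, g • a = f' a := by
  classical
  -- the group element on a component
  have hγ : ∀ y, y ∉ Vs G X m v → ∃ γ : G, ∀ w (hw : w ∈ Vs G X m v),
      w ∉ cp X (LL G m) y → (∃ x ∈ cp X (LL G m) y, X.Adj x w) → γ • w = (f' ⟨w, hw⟩).1 := by
    intro y hy
    by_cases hne : (Nb X (LL G m) y).Nonempty
    · have : ∃ g : G, g • y ∈ cp X (LL G m) v := by
        by_contra hcon
        push Not at hcon
        exact hy hcon
      obtain ⟨g, hg⟩ := this
      have hcp : cp X (LL G m) (g • y) = cp X (LL G m) v := cp_eq hv hg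
      have hNb : ∀ w, w ∈ Nb X (LL G m) y ↔ g • w ∈ Nb X (LL G m) v := by
        intro w
        rw [← nb_smul S g, Nb, Nb, hcp]
      obtain ⟨w0, hw0⟩ := hne
      have heN := (he _ ((hNb w0).1 hw0)).1
      have he' : g⁻¹ • e ∈ Nb X (LL G m) y := by
        rw [hNb, smul_inv_smul]; exact heN
      have heV : g⁻¹ • e ∈ Vs G X m v := nb_mem_Vs hv he'
      obtain ⟨s0, hs0⟩ := hf1 ⟨g⁻¹ • e, heV⟩
      refine ⟨s0, fun w hw h1 h2 => ?_⟩
      have hwN : w ∈ Nb X (LL G m) y := ⟨h1, h2⟩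
      by_cases hwe : w = g⁻¹ • e
      · subst hwe
        rw [hs0]; rfl
      · have hadj : (XR G X m v e).Adj ⟨g⁻¹ • e, heV⟩ ⟨w, hw⟩ := by
          refine ⟨fun hh => hwe (congrArg Subtype.val hh).symm, Or.inr (Or.inl ⟨g⁻¹, rfl, ?_⟩)⟩
          rw [inv_inv]
          exact (hNb w).1 hwN
        obtain ⟨s, hs1, hs2⟩ := hf2 _ _ hadj
        have h3 : s0 • g⁻¹ • e = s • g⁻¹ • e := by
          have := congrArg Subtype.val (hs0.symm.trans hs1)
          exact this
        have h4 : g * (s0⁻¹ * s) * g⁻¹ ∈ stabilizer G e := by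
          rw [mem_stabilizer_iff, mul_smul, mul_smul, mul_smul, ← h3, inv_smul_smul, smul_inv_smul]
        have h5 := (he _ ((hNb w).1 hwN)).2 h4
        rw [mem_stabilizer_iff, mul_smul, mul_smul, inv_smul_smul] at h5
        have h6 := MulAction.injective g h5
        rw [mul_smul, inv_smul_eq_iff] at h6
        rw [hs2, ← h6]; rfl
    · exact ⟨1, fun w hw h1 h2 => (hne ⟨w, h1, h2⟩).elim⟩
  let Γ : Set V → G := fun C => if hC : ∃ γ : G, ∀ w (hw : w ∈ Vs G X m v),
      w ∉ C → (∃ x ∈ C, X.Adj x w) → γ • w = (f' ⟨w, hw⟩).1 then hC.choose else 1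
  have hΓ : ∀ y, y ∉ Vs G X m v → ∀ w (hw : w ∈ Vs G X m v), w ∈ Nb X (LL G m) y →
      Γ (cp X (LL G m) y) • w = (f' ⟨w, hw⟩).1 := by
    intro y hy w hw hwN
    have h1 := hγ y hy
    have h2 : Γ (cp X (LL G m) y) = h1.choose := dif_pos h1
    rw [h2]
    exact h1.choose_spec w hw hwN.1 hwN.2
  let f : V → V := fun y => if hy : y ∈ Vs G X m v then (f' ⟨y, hy⟩).1
    else Γ (cp X (LL G m) y) • y
  have f1 : ∀ y (hy : y ∈ Vs G X m v), f y = (f' ⟨y, hy⟩).1 := fun y hy => dif_pos hy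
  have f2 : ∀ y, y ∉ Vs G X m v → f y = Γ (cp X (LL G m) y) • y := fun y hy => dif_neg hy
  have hfinj : Function.Injective f := by
    intro y1 y2 h12
    by_cases hy1 : y1 ∈ Vs G X m v
    · by_cases hy2 : y2 ∈ Vs G X m v
      · rw [f1 y1 hy1, f1 y2 hy2] at h12
        exact congrArg Subtype.val (hinj (Subtype.ext h12))
      · rw [f1 y1 hy1, f2 y2 hy2] at h12
        exfalso
        apply hy2
        rw [← notVs_smul (Γ (cp X (LL G m) y2)), ← h12]
        exact (f' ⟨y1, hy1⟩).2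
    · by_cases hy2 : y2 ∈ Vs G X m v
      · rw [f2 y1 hy1, f1 y2 hy2] at h12
        exfalso
        apply hy1
        rw [← notVs_smul (Γ (cp X (LL G m) y1)), h12]
        exact (f' ⟨y2, hy2⟩).2
      · rw [f2 y1 hy1, f2 y2 hy2] at h12
        set γ1 := Γ (cp X (LL G m) y1) with hγ1
        set γ2 := Γ (cp X (LL G m) y2) with hγ2
        have hy1L := LL_of_notVs hv hy1
        have hy2L := LL_of_notVs hv hy2
        have hfix : ∀ w ∈ Nb X (LL G m) y1, (γ2⁻¹ * γ1) • w = w := by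
          intro w hw
          have hwV := nb_mem_Vs (v := v) hv hw
          have h3 : γ1 • w = (f' ⟨w, hwV⟩).1 := hΓ y1 hy1 w hwV hw
          have h4 : γ1 • w ∈ Nb X (LL G m) (γ2 • y2) := by
            rw [← h12, nb_smul S]; exact hw
          have h5 : γ2⁻¹ • γ1 • w ∈ Nb X (LL G m) y2 := by
            rw [← nb_smul S γ2, smul_inv_smul]; exact h4
          have h5V := nb_mem_Vs (v := v) hv h5
          have h6 := hΓ y2 hy2 _ h5V h5
          change γ2 • γ2⁻¹ • γ1 • w = _ at h6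
          rw [smul_inv_smul] at h6
          have h7 := congrArg Subtype.val (hinj (Subtype.ext (h3.symm.trans h6)))
          rw [mul_smul]
          exact h7.symm
        have h3 := fix_comp S hy1L hfix
        have h4 : (γ2⁻¹ * γ1) • cp X (LL G m) y1 = cp X (LL G m) y2 := by
          rw [mul_smul, cp_smul S γ1, h12, cp_smul S, inv_smul_smul]
        have h5 : cp X (LL G m) y1 = cp X (LL G m) y2 := h3.symm.trans h4
        have h6 : γ1 = γ2 := by rw [hγ1, hγ2, h5]
        rw [h6] at h12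
        exact MulAction.injective γ2 h12
  have c1 : ∀ y, ∃ g : G, f y = g • y := by
    intro y
    by_cases hy : y ∈ Vs G X m v
    · obtain ⟨g, hg⟩ := hf1 ⟨y, hy⟩
      exact ⟨g, by rw [f1 y hy, hg]; rfl⟩
    · exact ⟨_, f2 y hy⟩
  have c2 : ∀ u w, X.Adj u w → ∃ g : G, f u = g • u ∧ f w = g • w := by
    intro u w huw
    by_cases hu : u ∈ Vs G X m v
    · by_cases hw : w ∈ Vs G X m v
      · obtain ⟨g, hg1, hg2⟩ := hf2 ⟨u, hu⟩ ⟨w, hw⟩
          ⟨fun hh => huw.ne (congrArg Subtype.val hh), Or.inl huw⟩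
        exact ⟨g, by rw [f1 u hu, hg1]; rfl, by rw [f1 w hw, hg2]; rfl⟩
      · have hN := edge_nb hv S huw.symm hw hu
        exact ⟨Γ (cp X (LL G m) w), by rw [f1 u hu, hΓ w hw u hu hN], f2 w hw⟩
    · by_cases hw : w ∈ Vs G X m v
      · have hN := edge_nb hv S huw hu hw
        exact ⟨Γ (cp X (LL G m) u), f2 u hu, by rw [f1 w hw, hΓ u hu w hw hN]⟩
      · refine ⟨Γ (cp X (LL G m) u), f2 u hu, ?_⟩
        rw [f2 w hw, edge_cp hv huw hu hw]
  obtain ⟨g, hg⟩ := S.full f hfinj c1 c2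
  refine ⟨g, fun a => Subtype.ext ?_⟩
  rw [SubMulAction.val_smul, hg, f1 a.1 a.2]

end Pool.Agent.W129.BC
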