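import Pool.Agent.W129.BC.Reduce

/-!
The group is a permutational wreath product of an abelian group by the group of the contracted
graph.
-/

set_option autoImplicit false
set_option linter.unusedSectionVars false

namespace Pool.Agent.W129.BC

open SimpleGraph MulAction Pool.Agent.Helper999.HM
open scoped Pointwise

variable {h : ℕ} {V G : Type} [Finite V] [Group G] [Finite G] [MulAction G V] {X : SimpleGraph V}
variable {m : ℕ}

open scoped Classical in
/-- an element moving `K` to `C` -/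
noncomputable def cc (G : Type) {V : Type} [Group G] [MulAction G V] (K C : Set V) : G :=
  if hC : ∃ g : G, g • K = C then hC.choose else 1

theorem cc_spec {K C : Set V} (hC : C ∈ orbit G K) : cc G K C • K = C := by
  have h1 : ∃ g : G, g • K = C := hC
  rw [cc, dif_pos h1]
  exact h1.choose_spec

omit [Finite V] [Finite G] in
theorem smul_mem_orbit' {K C : Set V} (g : G) (hC : C ∈ orbit G K) : g • C ∈ orbit G K := by
  obtain ⟨g', rfl⟩ := hC
  exact ⟨g * g', mul_smul _ _ _⟩

/-- the complement -/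
def SS (G : Type) {V : Type} [Group G] [MulAction G V] (K : Set V) : Subgroup G where
  carrier := {s | ∀ C ∈ orbit G K, ∀ x ∈ K, s • cc G K C • x = cc G K (s • C) • x}
  one_mem' := by
    intro C _ x _
    rw [one_smul, one_smul]
  mul_mem' := by
    intro a b ha hb C hC x hx
    rw [mul_smul, hb C hC x hx, ha (b • C) (smul_mem_orbit' _ hC) x hx, mul_smul]
  inv_mem' := by
    intro a ha C hC x hx
    have h1 := ha (a⁻¹ • C) (smul_mem_orbit' _ hC) x hx
    rw [smul_inv_smul] at h1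
    rw [← h1, inv_smul_smul]

/-- the pointwise stabilizer of the complement of `K` -/
def QQ (G : Type) {V : Type} [Group G] [MulAction G V] (K : Set V) : Subgroup G where
  carrier := {q | ∀ y ∉ K, q • y = y}
  one_mem' := fun y _ => one_smul _ y
  mul_mem' := by
    intro a b ha hb y hy
    rw [mul_smul, hb y hy, ha y hy]
  inv_mem' := by
    intro a ha y hy
    rw [inv_smul_eq_iff, ha y hy]

theorem ext_act (S : Setup h G X) {a b : G} (hab : ∀ y : V, a • y = b • y) : a = b := by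
  rw [← inv_mul_eq_one]
  apply S.faithful
  intro y
  rw [mul_smul, inv_smul_eq_iff, hab]

theorem orbit_notVs (S : Setup h G X) {v y : V} (hv : v ∈ LL G (V := V) m) {C : Set V}
    (hC : C ∈ orbit G (cp X (LL G m) v)) (hy : y ∈ C) :
    y ∉ Vs G X m v ∧ cp X (LL G m) y = C := by
  obtain ⟨g, rfl⟩ := hC
  change y ∈ g • cp X (LL G m) v at hy
  rw [cp_smul S] at hy
  have h1 : cp X (LL G m) y = g • cp X (LL G m) v := by
    rw [cp_smul S]
    exact cp_eq ((LL_smul g).2 hv) hy
  refine ⟨?_, h1⟩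
  rw [mem_Vs_iff S hv, h1]
  exact ⟨g, rfl⟩

theorem cc_inv_mem (S : Setup h G X) {v y : V} (hv : v ∈ LL G (V := V) m)
    (hy : y ∉ Vs G X m v) :
    (cc G (cp X (LL G m) v) (cp X (LL G m) y))⁻¹ • y ∈ cp X (LL G m) v := by
  rw [← Set.mem_smul_set_iff_inv_smul_mem, cc_spec ((mem_Vs_iff S hv).1 hy)]
  exact mem_cp y

theorem exists_SS (S : Setup h G X) (hm : ∀ v : V, m ≤ Nat.card (stabilizer G v)) {v : V}
    (hv : v ∈ LL G (V := V) m) (g : G) :
    ∃ s ∈ SS G (cp X (LL G m) v), ∀ y ∈ Vs G X m v, s • y = g • y := by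
  classical
  set K := cp X (LL G m) v with hK
  let δ : V → G := fun y => cc G K (g • cp X (LL G m) y) * (cc G K (cp X (LL G m) y))⁻¹
  have hδcp : ∀ u w, cp X (LL G m) u = cp X (LL G m) w → δ u = δ w := by
    intro u w huw
    simp only [δ, huw]
  have hδ : ∀ y, y ∉ Vs G X m v → δ y • cp X (LL G m) y = g • cp X (LL G m) y := by
    intro y hy
    have h1 := (mem_Vs_iff S hv).1 hy
    have h2 : (cc G K (cp X (LL G m) y))⁻¹ • cp X (LL G m) y = K := by
      rw [inv_smul_eq_iff, cc_spec h1]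
    simp only [δ]
    rw [mul_smul, h2, cc_spec (smul_mem_orbit' g h1)]
  let f : V → V := fun y => if y ∈ Vs G X m v then g • y else δ y • y
  have f1 : ∀ y, y ∈ Vs G X m v → f y = g • y := fun y hy => if_pos hy
  have f2 : ∀ y, y ∉ Vs G X m v → f y = δ y • y := fun y hy => if_neg hy
  have f2mem : ∀ y, y ∉ Vs G X m v → f y ∈ g • cp X (LL G m) y := by
    intro y hy
    rw [f2 y hy, ← hδ y hy]
    exact Set.smul_mem_smul_set (mem_cp y)
  have hfinj : Function.Injective f := by
    intro y1 y2 h12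
    by_cases hy1 : y1 ∈ Vs G X m v
    · by_cases hy2 : y2 ∈ Vs G X m v
      · rw [f1 y1 hy1, f1 y2 hy2] at h12
        exact MulAction.injective g h12
      · rw [f1 y1 hy1, f2 y2 hy2] at h12
        exfalso
        apply hy2
        rw [← notVs_smul (δ y2), ← h12, notVs_smul]
        exact hy1
    · by_cases hy2 : y2 ∈ Vs G X m v
      · rw [f2 y1 hy1, f1 y2 hy2] at h12
        exfalso
        apply hy1
        rw [← notVs_smul (δ y1), h12, notVs_smul]
        exact hy2
      · have h3 := f2mem y1 hy1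
        have h4 := f2mem y2 hy2
        rw [h12] at h3
        rw [cp_smul S] at h3 h4
        have h5 := cp_eq_of_mem ((LL_smul g).2 (LL_of_notVs hv hy1))
          ((LL_smul g).2 (LL_of_notVs hv hy2)) h3 h4
        rw [← cp_smul S, ← cp_smul S] at h5
        have h6 := MulAction.injective g h5
        rw [f2 y1 hy1, f2 y2 hy2, hδcp _ _ h6] at h12
        exact MulAction.injective _ h12
  have hnb : ∀ u w, u ∉ Vs G X m v → w ∈ Vs G X m v → X.Adj u w → f w = δ u • w := by
    intro u w hu hw huw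
    have hN := edge_nb hv S huw hu hw
    have h1 : (g⁻¹ * δ u) ∈ stabilizer G (cp X (LL G m) u) := by
      rw [mem_stabilizer_iff, mul_smul, hδ u hu, inv_smul_smul]
    have h2 := fix_nb S hm (LL_of_notVs hv hu) hN h1
    rw [mem_stabilizer_iff, mul_smul, inv_smul_eq_iff] at h2
    rw [f1 w hw, h2]
  have c1 : ∀ y, ∃ g : G, f y = g • y := by
    intro y
    by_cases hy : y ∈ Vs G X m v
    · exact ⟨g, f1 y hy⟩
    · exact ⟨_, f2 y hy⟩
  have c2 : ∀ u w, X.Adj u w → ∃ g : G, f u = g • u ∧ f w = g • w := by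
    intro u w huw
    by_cases hu : u ∈ Vs G X m v
    · by_cases hw : w ∈ Vs G X m v
      · exact ⟨g, f1 u hu, f1 w hw⟩
      · exact ⟨δ w, hnb w u hw hu huw.symm, f2 w hw⟩
    · by_cases hw : w ∈ Vs G X m v
      · exact ⟨δ u, f2 u hu, hnb u w hu hw huw⟩
      · refine ⟨δ u, f2 u hu, ?_⟩
        rw [f2 w hw, hδcp _ _ (edge_cp hv huw hu hw)]
  obtain ⟨s, hs⟩ := S.full f hfinj c1 c2
  refine ⟨s, ?_, fun y hy => by rw [hs, f1 y hy]⟩
  intro C hC x hx
  have hyC : cc G K C • x ∈ C := by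
    have h1 : cc G K C • x ∈ cc G K C • K := Set.smul_mem_smul_set hx
    rwa [cc_spec hC] at h1
  obtain ⟨h1, h2⟩ := orbit_notVs S hv hC hyC
  have h3 : s • C = g • C := by
    have h4 := f2mem _ h1
    rw [h2, ← hs] at h4
    have h5 : s • (cc G K C • x) ∈ s • C := Set.smul_mem_smul_set hyC
    rw [← (orbit_notVs S hv (smul_mem_orbit' g hC) h4).2,
      ← (orbit_notVs S hv (smul_mem_orbit' s hC) h5).2]
  rw [hs, f2 _ h1, h3]
  simp only [δ]
  rw [h2, mul_smul, inv_smul_smul]

theorem fix_orbit (S : Setup h G X) {v : V} (hv : v ∈ LL G (V := V) m) {d : G}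
    (hd : ∀ y ∈ Vs G X m v, d • y = y) {y : V} (hy : y ∉ Vs G X m v) :
    d • cp X (LL G m) y = cp X (LL G m) y :=
  fix_comp S (LL_of_notVs hv hy) fun w hw => hd w (nb_mem_Vs hv hw)

theorem SS_triv (S : Setup h G X) {v : V} (hv : v ∈ LL G (V := V) m) {s : G}
    (hs : s ∈ SS G (cp X (LL G m) v)) (hd : ∀ y ∈ Vs G X m v, s • y = y) : s = 1 := by
  apply S.faithful
  intro y
  by_cases hy : y ∈ Vs G X m v
  · exact hd y hy
  · have h1 := (mem_Vs_iff S hv).1 hy
    have h2 := hs _ h1 _ (cc_inv_mem S hv hy)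
    rw [smul_inv_smul, fix_orbit S hv hd hy, smul_inv_smul] at h2
    exact h2

theorem QQ_stab (K : Set V) : QQ G K ≤ stabilizer G K := by
  have key : ∀ q ∈ QQ G K, ∀ x ∈ K, q • x ∈ K := by
    intro q hq x hx
    by_contra hcon
    have h1 := hq _ hcon
    have h2 := MulAction.injective q h1
    rw [h2] at hcon
    exact hcon hx
  intro q hq
  rw [mem_stabilizer_iff]
  ext y
  rw [Set.mem_smul_set_iff_inv_smul_mem]
  constructor
  · intro hy
    have := key q hq _ hy
    rwa [smul_inv_smul] at this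
  · exact key q⁻¹ ((QQ G K).inv_mem hq) y

theorem QQ_comm (S : Setup h G X) {v : V} (hv : v ∈ LL G (V := V) m) {a b : G}
    (ha : a ∈ QQ G (cp X (LL G m) v)) (hb : b ∈ QQ G (cp X (LL G m) v)) : a * b = b * a := by
  apply ext_act S
  intro y
  rw [mul_smul, mul_smul]
  by_cases hy : y ∈ cp X (LL G m) v
  · exact comm_cp S hv (QQ_stab _ ha) (QQ_stab _ hb) hy
  · rw [hb y hy, ha y hy, hb y hy]

theorem exists_QQ (S : Setup h G X) (hm : ∀ v : V, m ≤ Nat.card (stabilizer G v)) {v : V}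
    (hv : v ∈ LL G (V := V) m) {n : G} (hn : n ∈ stabilizer G (cp X (LL G m) v)) :
    ∃ q ∈ QQ G (cp X (LL G m) v), ∀ x ∈ cp X (LL G m) v, q • x = n • x := by
  classical
  set K := cp X (LL G m) v with hK
  have hnK : ∀ y ∈ K, n • y ∈ K := by
    intro y hy
    have h1 : n • y ∈ n • K := Set.smul_mem_smul_set hy
    rwa [mem_stabilizer_iff.1 hn] at h1
  let f : V → V := fun y => if y ∈ K then n • y else y
  have f1 : ∀ y ∈ K, f y = n • y := fun y hy => if_pos hy
  have f2 : ∀ y, y ∉ K → f y = y := fun y hy => if_neg hy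
  have hfinj : Function.Injective f := by
    intro y1 y2 h12
    by_cases hy1 : y1 ∈ K
    · by_cases hy2 : y2 ∈ K
      · rw [f1 y1 hy1, f1 y2 hy2] at h12
        exact MulAction.injective n h12
      · rw [f1 y1 hy1, f2 y2 hy2] at h12
        exact (hy2 (h12 ▸ hnK y1 hy1)).elim
    · by_cases hy2 : y2 ∈ K
      · rw [f2 y1 hy1, f1 y2 hy2] at h12
        exact (hy1 (h12 ▸ hnK y2 hy2)).elim
      · rwa [f2 y1 hy1, f2 y2 hy2] at h12
  have hnb : ∀ u w, u ∈ K → w ∉ K → X.Adj u w → f w = n • w := by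
    intro u w hu hw huw
    have h2 := fix_nb S hm hv (w := w) ⟨hw, u, hu, huw⟩ hn
    rw [mem_stabilizer_iff] at h2
    rw [f2 w hw, h2]
  obtain ⟨q, hq⟩ := S.full f hfinj (fun y => by
    by_cases hy : y ∈ K
    · exact ⟨n, f1 y hy⟩
    · exact ⟨1, by rw [f2 y hy, one_smul]⟩) (fun u w huw => by
    by_cases hu : u ∈ K
    · by_cases hw : w ∈ K
      · exact ⟨n, f1 u hu, f1 w hw⟩
      · exact ⟨n, f1 u hu, hnb u w hu hw huw⟩
    · by_cases hw : w ∈ K
      · exact ⟨n, hnb w u hw hu huw.symm, f1 w hw⟩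
      · exact ⟨1, by rw [f2 u hu, one_smul], by rw [f2 w hw, one_smul]⟩)
  exact ⟨q, fun y hy => by rw [hq, f2 y hy], fun x hx => by rw [hq, f1 x hx]⟩

section E

open scoped Classical in
/-- extension of `f` by `1` -/
noncomputable def FF {K : Set V} (f : orbit G K → QQ G K) (C : Set V) : G :=
  if hC : C ∈ orbit G K then (f ⟨C, hC⟩ : G) else 1

theorem FF_mem {K : Set V} (f : orbit G K → QQ G K) (C : Set V) : FF f C ∈ QQ G K := by
  unfold FF
  split_ifs
  · exact (f _).2
  · exact (QQ G K).one_mem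

theorem FF_one {K : Set V} (C : Set V) : FF (1 : orbit G K → QQ G K) C = 1 := by
  unfold FF
  split_ifs <;> rfl

theorem FF_mul {K : Set V} (f f' : orbit G K → QQ G K) (C : Set V) :
    FF (f * f') C = FF f C * FF f' C := by
  unfold FF
  split_ifs
  · rfl
  · rw [one_mul]

/-- the element acting on `y` -/
noncomputable def ee (X : SimpleGraph V) (m : ℕ) (v : V)
    (f : orbit G (cp X (LL G m) v) → QQ G (cp X (LL G m) v)) (y : V) : G :=
  cc G (cp X (LL G m) v) (cp X (LL G m) y) * FF f (cp X (LL G m) y) *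
    (cc G (cp X (LL G m) v) (cp X (LL G m) y))⁻¹

theorem ee_cp {v : V} (f : orbit G (cp X (LL G m) v) → QQ G (cp X (LL G m) v)) {u w : V}
    (huw : cp X (LL G m) u = cp X (LL G m) w) : ee X m v f u = ee X m v f w := by
  unfold ee; rw [huw]

theorem ee_Vs (S : Setup h G X) {v : V} (hv : v ∈ LL G (V := V) m)
    (f : orbit G (cp X (LL G m) v) → QQ G (cp X (LL G m) v)) {y : V} (hy : y ∈ Vs G X m v) :
    ee X m v f y = 1 := by
  have h1 : cp X (LL G m) y ∉ orbit G (cp X (LL G m) v) := by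
    rw [← mem_Vs_iff S hv]
    exact fun hh => hh hy
  unfold ee FF
  rw [dif_neg h1]
  group

theorem ee_stab (S : Setup h G X) {v : V} (hv : v ∈ LL G (V := V) m)
    (f : orbit G (cp X (LL G m) v) → QQ G (cp X (LL G m) v)) {y : V} (hy : y ∉ Vs G X m v) :
    ee X m v f y • cp X (LL G m) y = cp X (LL G m) y := by
  have h1 := cc_spec ((mem_Vs_iff S hv).1 hy)
  have h2 : (cc G (cp X (LL G m) v) (cp X (LL G m) y))⁻¹ • cp X (LL G m) y =
      cp X (LL G m) v := by rw [inv_smul_eq_iff, h1]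
  unfold ee
  rw [mul_smul, mul_smul, h2, mem_stabilizer_iff.1 (QQ_stab _ (FF_mem f _)), h1]

theorem ee_smul_cp (S : Setup h G X) {v : V} (hv : v ∈ LL G (V := V) m)
    (f : orbit G (cp X (LL G m) v) → QQ G (cp X (LL G m) v)) (y : V) :
    cp X (LL G m) (ee X m v f y • y) = cp X (LL G m) y := by
  by_cases hy : y ∈ Vs G X m v
  · rw [ee_Vs S hv f hy, one_smul]
  · rw [← cp_smul S, ee_stab S hv f hy]

theorem ee_mul (S : Setup h G X) {v : V} (hv : v ∈ LL G (V := V) m)
    (f f' : orbit G (cp X (LL G m) v) → QQ G (cp X (LL G m) v)) (y : V) :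
    ee X m v (f * f') y • y = ee X m v f (ee X m v f' y • y) • ee X m v f' y • y := by
  rw [ee_cp f (ee_smul_cp S hv f' y), ← mul_smul]
  congr 1
  unfold ee
  rw [FF_mul]
  group

theorem ee_one {v : V} (y : V) :
    ee X m v (1 : orbit G (cp X (LL G m) v) → QQ G (cp X (LL G m) v)) y = 1 := by
  unfold ee
  rw [FF_one]
  group

theorem exists_E (S : Setup h G X) (hm : ∀ v : V, m ≤ Nat.card (stabilizer G v)) {v : V}
    (hv : v ∈ LL G (V := V) m) (f : orbit G (cp X (LL G m) v) → QQ G (cp X (LL G m) v)) :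
    ∃ g : G, ∀ y, g • y = ee X m v f y • y := by
  refine S.full (fun y => ee X m v f y • y) ?_ (fun y => ⟨_, rfl⟩) ?_
  · intro y1 y2 h12
    have key : ∀ y, ee X m v f⁻¹ (ee X m v f y • y) • ee X m v f y • y = y := by
      intro y
      rw [← ee_mul S hv, inv_mul_cancel, ee_one, one_smul]
    rw [← key y1, ← key y2]
    simp only at h12
    rw [h12]
  · have hnb : ∀ u w, X.Adj u w → u ∉ Vs G X m v → w ∈ Vs G X m v →
        ee X m v f w • w = ee X m v f u • w := by
      intro u w huw hu hw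
      have hN := edge_nb hv S huw hu hw
      have h2 := fix_nb S hm (LL_of_notVs hv hu) hN (mem_stabilizer_iff.2 (ee_stab S hv f hu))
      rw [mem_stabilizer_iff] at h2
      rw [ee_Vs S hv f hw, one_smul, h2]
    intro u w huw
    by_cases hu : u ∈ Vs G X m v
    · by_cases hw : w ∈ Vs G X m v
      · exact ⟨1, by simp only [ee_Vs S hv f hu], by simp only [ee_Vs S hv f hw]⟩
      · exact ⟨ee X m v f w, hnb w u huw.symm hw hu, rfl⟩
    · by_cases hw : w ∈ Vs G X m v
      · exact ⟨ee X m v f u, rfl, hnb u w huw hu hw⟩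
      · refine ⟨ee X m v f u, rfl, ?_⟩
        rw [ee_cp f (edge_cp hv huw hu hw)]

end E

/-- the base group of the wreath product -/
noncomputable def EE (S : Setup h G X) (hm : ∀ v : V, m ≤ Nat.card (stabilizer G v)) {v : V}
    (hv : v ∈ LL G (V := V) m) :
    (orbit G (cp X (LL G m) v) → QQ G (cp X (LL G m) v)) →* G where
  toFun f := (exists_E S hm hv f).choose
  map_one' := by
    apply ext_act S
    intro y
    rw [(exists_E S hm hv 1).choose_spec, ee_one]
  map_mul' := by
    intro f f'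
    apply ext_act S
    intro y
    rw [mul_smul, (exists_E S hm hv _).choose_spec, (exists_E S hm hv f').choose_spec,
      (exists_E S hm hv f).choose_spec, ee_mul S hv]

theorem EE_spec (S : Setup h G X) (hm : ∀ v : V, m ≤ Nat.card (stabilizer G v)) {v : V}
    (hv : v ∈ LL G (V := V) m) (f : orbit G (cp X (LL G m) v) → QQ G (cp X (LL G m) v)) (y : V) :
    EE S hm hv f • y = ee X m v f y • y := (exists_E S hm hv f).choose_spec y

theorem EE_conj (S : Setup h G X) (hm : ∀ v : V, m ≤ Nat.card (stabilizer G v)) {v : V}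
    (hv : v ∈ LL G (V := V) m) (s : SS G (cp X (LL G m) v))
    (f : orbit G (cp X (LL G m) v) → QQ G (cp X (LL G m) v)) :
    EE S hm hv (mulAutArrow s f) = s.1 * EE S hm hv f * s.1⁻¹ := by
  apply ext_act S
  intro y
  rw [mul_smul, mul_smul, EE_spec, EE_spec]
  by_cases hy : y ∈ Vs G X m v
  · have hy' : s.1⁻¹ • y ∈ Vs G X m v := (notVs_smul _).2 hy
    rw [ee_Vs S hv _ hy, ee_Vs S hv _ hy', one_smul, one_smul, smul_inv_smul]
  · set C := cp X (LL G m) y with hC
    have hCo : C ∈ orbit G (cp X (LL G m) v) := (mem_Vs_iff S hv).1 hy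
    set x := (cc G (cp X (LL G m) v) C)⁻¹ • y with hx
    have hxK : x ∈ cp X (LL G m) v := cc_inv_mem S hv hy
    have hyx : y = cc G (cp X (LL G m) v) C • x := by rw [hx, smul_inv_smul]
    have hcp : cp X (LL G m) (s.1⁻¹ • y) = s.1⁻¹ • C := (cp_smul S _ _).symm
    have hsinv := (SS G (cp X (LL G m) v)).inv_mem s.2 C hCo x hxK
    have e1 : s.1⁻¹ • y = cc G (cp X (LL G m) v) (s.1⁻¹ • C) • x := by rw [← hsinv, ← hyx]
    have hFK : FF f (s.1⁻¹ • C) • x ∈ cp X (LL G m) v := by
      have h1 : FF f (s.1⁻¹ • C) • x ∈ FF f (s.1⁻¹ • C) • cp X (LL G m) v := Set.smul_mem_smul_set hxK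
      rwa [mem_stabilizer_iff.1 (QQ_stab _ (FF_mem f _))] at h1
    have e2 : ee X m v f (s.1⁻¹ • y) • s.1⁻¹ • y =
        cc G (cp X (LL G m) v) (s.1⁻¹ • C) • FF f (s.1⁻¹ • C) • x := by
      unfold ee
      rw [hcp, e1, mul_smul, mul_smul, inv_smul_smul]
    have e3 := s.2 (s.1⁻¹ • C) (smul_mem_orbit' _ hCo) _ hFK
    rw [smul_inv_smul] at e3
    rw [e2, e3]
    have e4 : FF (mulAutArrow s f) C = FF f (s.1⁻¹ • C) := by
      unfold FF
      rw [dif_pos hCo, dif_pos (smul_mem_orbit' _ hCo)]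
      rfl
    unfold ee
    rw [← hC, e4, mul_smul, mul_smul, ← hx]

/-- `G` is a permutational wreath product -/
theorem wreath_iso (S : Setup h G X) (hm : ∀ v : V, m ≤ Nat.card (stabilizer G v)) {v : V}
    (hv : v ∈ LL G (V := V) m) :
    Nonempty (((orbit G (cp X (LL G m) v) → QQ G (cp X (LL G m) v)) ⋊[mulAutArrow]
      (SS G (cp X (LL G m) v))) ≃* G) := by
  classical
  have hcomp : ∀ s : SS G (cp X (LL G m) v),
      (EE S hm hv).comp (MulEquiv.toMonoidHom (mulAutArrow s)) =
      (MulEquiv.toMonoidHom (MulAut.conj ((SS G (cp X (LL G m) v)).subtype s))).comp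
        (EE S hm hv) := by
    intro s
    ext f
    exact EE_conj S hm hv s f
  let Φ := SemidirectProduct.lift (EE S hm hv) (SS G (cp X (LL G m) v)).subtype hcomp
  have hΦ : ∀ (f : orbit G (cp X (LL G m) v) → QQ G (cp X (LL G m) v))
      (s : SS G (cp X (LL G m) v)), Φ ⟨f, s⟩ = EE S hm hv f * s.1 := fun f s => rfl
  refine ⟨MulEquiv.ofBijective Φ ⟨?_, ?_⟩⟩
  · rw [injective_iff_map_eq_one]
    rintro ⟨f, s⟩ hfs
    rw [hΦ] at hfs
    have hs1 : s.1 = 1 := by
      apply SS_triv S hv s.2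
      intro y hy
      have h1 : (EE S hm hv f * s.1) • y = y := by rw [hfs, one_smul]
      rw [mul_smul, EE_spec, ee_Vs S hv f ((notVs_smul _).2 hy), one_smul] at h1
      exact h1
    have hs : s = 1 := Subtype.ext hs1
    subst hs
    rw [hs1, mul_one] at hfs
    have hf : f = 1 := by
      funext C
      apply Subtype.ext
      apply S.faithful
      intro x
      by_cases hx : x ∈ cp X (LL G m) v
      · have hyC : cc G (cp X (LL G m) v) C.1 • x ∈ C.1 := by
          have h1 : cc G (cp X (LL G m) v) C.1 • x ∈ cc G (cp X (LL G m) v) C.1 • cp X (LL G m) v :=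
            Set.smul_mem_smul_set hx
          rwa [cc_spec C.2] at h1
        obtain ⟨h1, h2⟩ := orbit_notVs S hv C.2 hyC
        have h3 := EE_spec S hm hv f (cc G (cp X (LL G m) v) C.1 • x)
        rw [hfs, one_smul] at h3
        unfold ee at h3
        rw [h2, mul_smul, mul_smul, inv_smul_smul] at h3
        have h4 := MulAction.injective _ h3
        unfold FF at h4
        rw [dif_pos C.2] at h4
        exact h4.symm
      · exact (f C).2 x hx
    rw [hf]
    rfl
  · intro g
    obtain ⟨s, hs, hsy⟩ := exists_SS S hm hv g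
    have hd : ∀ y ∈ Vs G X m v, (g * s⁻¹) • y = y := by
      intro y hy
      have h1 := hsy _ ((notVs_smul s⁻¹).2 hy)
      rw [smul_inv_smul] at h1
      rw [mul_smul, ← h1]
    have hq : ∀ C : orbit G (cp X (LL G m) v), ∃ q ∈ QQ G (cp X (LL G m) v),
        ∀ x ∈ cp X (LL G m) v, q • x = ((cc G (cp X (LL G m) v) C.1)⁻¹ * (g * s⁻¹) *
          cc G (cp X (LL G m) v) C.1) • x := by
      intro C
      apply exists_QQ S hm hv
      rw [mem_stabilizer_iff, mul_smul, mul_smul, cc_spec C.2, inv_smul_eq_iff, cc_spec C.2]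
      have hyC : cc G (cp X (LL G m) v) C.1 • v ∈ C.1 := by
        have h1 : cc G (cp X (LL G m) v) C.1 • v ∈ cc G (cp X (LL G m) v) C.1 • cp X (LL G m) v :=
          Set.smul_mem_smul_set (mem_cp v)
        rwa [cc_spec C.2] at h1
      obtain ⟨h1, h2⟩ := orbit_notVs S hv C.2 hyC
      rw [← h2]
      exact fix_orbit S hv hd h1
    choose q hq1 hq2 using hq
    refine ⟨⟨fun C => ⟨q C, hq1 C⟩, ⟨s, hs⟩⟩, ?_⟩
    rw [hΦ]
    rw [← eq_mul_inv_iff_mul_eq]
    apply ext_act S
    intro y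
    rw [EE_spec]
    by_cases hy : y ∈ Vs G X m v
    · rw [ee_Vs S hv _ hy, one_smul, hd y hy]
    · have hCo := (mem_Vs_iff S hv).1 hy
      have hxK := cc_inv_mem S hv hy
      unfold ee FF
      rw [dif_pos hCo, mul_smul, mul_smul, hq2 _ _ hxK, mul_smul, mul_smul, smul_inv_smul,
        smul_inv_smul]

/-- the data for the contracted graph -/
theorem setup_reduce (S : Setup h G X) (hm : ∀ v : V, m ≤ Nat.card (stabilizer G v)) {v : V}
    (hv : v ∈ LL G (V := V) m) :
    ∃ e : V, Setup h (SS G (cp X (LL G m) v)) (XR G X m v e) := by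
  obtain ⟨e, he⟩ := exists_least S hm hv
  refine ⟨e, ?_, ?_, S.big.subgroup _, ?_, ?_⟩
  · intro s a b hab
    exact XR_adj S s.1 a b hab
  · exact fun hk => S.nok (HasKMinor.of_minor hk (XR_minor S hm hv he))
  · intro s hs
    apply Subtype.ext
    apply SS_triv S hv s.2
    intro y hy
    exact congrArg Subtype.val (hs ⟨y, hy⟩)
  · intro f' hinj hf1 hf2
    obtain ⟨g, hg⟩ := full_restrict S hv he f' hinj
      (fun a => by obtain ⟨s, hs⟩ := hf1 a; exact ⟨s.1, hs⟩)
      (fun a b hab => by obtain ⟨s, hs⟩ := hf2 a b hab; exact ⟨s.1, hs⟩)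
    obtain ⟨s, hs, hsg⟩ := exists_SS S hm hv g
    refine ⟨⟨s, hs⟩, fun a => ?_⟩
    rw [← hg a]
    exact Subtype.ext (hsg a.1 a.2)

end Pool.Agent.W129.BC
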